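import Pool.Agent.P.MP_029dcd_co.F.D.Grid

/-! Nearly horizontal lines through thin strips, and quasi-symmetry of an abstract grid. -/

set_option autoImplicit false

namespace ECub.D

open CubicStab Finset

open Classical in
/-- count regularity for abstract data -/
def CRa (tp : Z2 → Bool) (g : Z2 → ℕ) (y : Z2) (m : ℕ) (τ K δ : ℝ) : Prop :=
  ∀ a1 a2 b1 b2 : ℤ, y.1 - m ≤ a1 → a1 ≤ a2 → a2 ≤ y.1 + m → y.2 - m ≤ b1 → b1 ≤ b2 →
    b2 ≤ y.2 + m →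
    τ * (((a2 - a1 : ℤ) : ℝ) * ((b2 - b1 : ℤ) : ℝ)) - δ ≤
      (((Ico a1 a2 ×ˢ Ico b1 b2).filter fun w => tp w = true).card : ℝ) ∧
    (∑ w ∈ Ico a1 a2 ×ˢ Ico b1 b2, (g w : ℝ)) ≤
      K * (((a2 - a1 : ℤ) : ℝ) * ((b2 - b1 : ℤ) : ℝ)) + δ

theorem CRa.swap {tp : Z2 → Bool} {g : Z2 → ℕ} {y : Z2} {m : ℕ} {τ K δ : ℝ}
    (h : CRa tp g y m τ K δ) : CRa (fun w => tp w.swap) (fun w => g w.swap) y.swap m τ K δ := by
  intro a1 a2 b1 b2 h1 h2 h3 h4 h5 h6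
  obtain ⟨k1, k2⟩ := h b1 b2 a1 a2 h4 h5 h6 h1 h2 h3
  rw [mul_comm ((a2 - a1 : ℤ) : ℝ)]
  constructor
  · refine k1.trans (Nat.cast_le.2 (card_le_card_of_injOn Prod.swap ?_ Prod.swap_injective.injOn))
    intro w hw
    simp only [coe_filter, mem_product, Set.mem_ofPred_eq] at hw ⊢
    exact ⟨⟨hw.1.2, hw.1.1⟩, hw.2⟩
  · refine le_of_eq_of_le ?_ k2
    rw [sum_product, sum_product, sum_comm]
    rfl

theorem CRa.mono {tp : Z2 → Bool} {g : Z2 → ℕ} {y : Z2} {m : ℕ} {τ K K' δ : ℝ}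
    (h : CRa tp g y m τ K δ) (hK : K ≤ K') : CRa tp g y m τ K' δ := by
  intro a1 a2 b1 b2 h1 h2 h3 h4 h5 h6
  obtain ⟨k1, k2⟩ := h a1 a2 b1 b2 h1 h2 h3 h4 h5 h6
  refine ⟨k1, k2.trans ?_⟩
  have p1 : (0 : ℝ) ≤ ((a2 - a1 : ℤ) : ℝ) := by exact_mod_cast sub_nonneg.2 h2
  have p2 : (0 : ℝ) ≤ ((b2 - b1 : ℤ) : ℝ) := by exact_mod_cast sub_nonneg.2 h5
  linarith [mul_le_mul_of_nonneg_right hK (mul_nonneg p1 p2)]

/-- A set `L` of nearly horizontal lines, one through each marked cell, and their row cells. -/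
structure SD (lam mu : ℤ → ℝ → ℝ) (n0 : ℤ) (tp : Z2 → Bool) (g : Z2 → ℕ) (L : Finset Pt)
    (ℓ : Z2 → Pt) (ar : Pt → ℤ → ℤ) (vl : Pt → ℝ → ℝ) : Prop where
  mem : ∀ w, tp w = true → ℓ w ∈ L ∧ ar (ℓ w) w.2 = w.1
  col : ∀ w w', tp w = true → tp w' = true → ℓ w = ℓ w' → w.1 = w'.1 → w = w'
  anti : ∀ r ∈ L, Antitone (ar r)
  le_g : ∀ w, (L.filter fun r => ar r w.2 = w.1).card ≤ g w
  slope : ∀ r ∈ L, ∀ x x', x ≤ x' → vl r x - vl r x' ≤ 1 / 100 * (x' - x)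
  pt : ∀ r ∈ L, ∀ b, ∃ x, vl r x = mu b x ∧
    ∀ a, 0 ≤ a → a < n0 → (a < ar r b ↔ lam a x < vl r x)

namespace SD

variable {lam mu : ℤ → ℝ → ℝ} {n0 : ℤ} {tp : Z2 → Bool} {g : Z2 → ℕ} {L : Finset Pt}
  {ℓ : Z2 → Pt} {ar : Pt → ℤ → ℤ} {vl : Pt → ℝ → ℝ} (h : SD lam mu n0 tp g L ℓ ar vl)
include h

theorem rows {S : Finset Pt} (hS : S ⊆ L) {a1 a2 b1 : ℤ} {m : ℕ}
    (H : ∀ r ∈ S, ∀ b, b1 ≤ b → b < b1 + m → a1 ≤ ar r b ∧ ar r b < a2) :
    (S.card : ℝ) * m ≤ ∑ w ∈ Ico a1 a2 ×ˢ Ico b1 (b1 + m), (g w : ℝ) := by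
  have e : S.card * m ≤ ∑ w ∈ Ico a1 a2 ×ˢ Ico b1 (b1 + m), g w := by
    calc S.card * m = ∑ _b ∈ Ico b1 (b1 + m), S.card := by simp [mul_comm]
      _ ≤ ∑ b ∈ Ico b1 (b1 + m), ∑ a ∈ Ico a1 a2, g (a, b) := by
        refine sum_le_sum fun b hb => ?_
        rw [mem_Ico] at hb
        rw [card_eq_sum_card_fiberwise (f := fun r => ar r b) (t := Ico a1 a2)
          fun r hr => mem_coe.2 (mem_Ico.2 (H r hr b hb.1 hb.2))]
        exact sum_le_sum fun a _ => (card_le_card (filter_subset_filter _ hS)).trans (h.le_g (a, b))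
      _ = _ := by rw [sum_product, sum_comm]
  exact_mod_cast e

theorem count {y : Z2} {M : ℕ} {τ K δ : ℝ} (hc : CRa tp g y M τ K δ) {a b : ℤ} {m m' : ℕ}
    (h1 : y.1 - M ≤ a - m') (h2 : a + 2 * m' ≤ y.1 + M) (h3 : y.2 - M ≤ b - m)
    (h4 : b + 2 * m ≤ y.2 + M) (hm : m' ≤ m) (hK : 8 * K * m' ≤ τ * m) (hδ0 : 0 ≤ δ)
    (hδ : 6 * δ < τ * m * m') :
    ∃ r ∈ L, a + 2 * m' ≤ ar r (b - m) ∧ ar r (b + 2 * m) < a - m' := by
  classical
  by_contra hn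
  push Not at hn
  have m0 : (0 : ℤ) ≤ m := Int.natCast_nonneg m
  have m0' : (0 : ℤ) ≤ m' := Int.natCast_nonneg m'
  obtain ⟨k0, -⟩ := hc a (a + m') b (b + m) (by linarith) (by linarith) (by linarith) (by linarith)
    (by linarith) (by linarith)
  obtain ⟨-, k1⟩ := hc a (a + 2 * m') (b - m) (b - m + m) (by linarith) (by linarith) (by linarith)
    (by linarith) (by linarith) (by linarith)
  obtain ⟨-, k2⟩ := hc (a - m') (a + m') (b + m) (b + m + m) (by linarith) (by linarith)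
    (by linarith) (by linarith) (by linarith) (by linarith)
  obtain ⟨R, hR⟩ : ∃ R, R = (Ico a (a + m') ×ˢ Ico b (b + m)).filter fun w => tp w = true :=
    ⟨_, rfl⟩
  have mR : ∀ w ∈ R, (a ≤ w.1 ∧ w.1 < a + m') ∧ (b ≤ w.2 ∧ w.2 < b + m) ∧ tp w = true := by
    intro w hw
    simp only [hR, mem_filter, mem_product, mem_Ico] at hw
    exact ⟨hw.1.1, hw.1.2, hw.2⟩
  have c0 : R.card ≤ m' * (R.image ℓ).card := by
    refine card_le_mul_card_image _ _ fun r _ => ?_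
    have : (Ico a (a + m')).card = m' := by simp
    rw [← this]
    refine card_le_card_of_injOn Prod.fst (fun w hw => ?_) fun w hw w' hw' e => ?_
    · exact mem_coe.2 (mem_Ico.2 (mR w (mem_filter.1 hw).1).1)
    · obtain ⟨u1, u2⟩ := mem_filter.1 hw
      obtain ⟨v1, v2⟩ := mem_filter.1 hw'
      exact h.col w w' (mR w u1).2.2 (mR w' v1).2.2 (u2.trans v2.symm) e
  have sub : R.image ℓ ⊆ L := fun r hr => by
    obtain ⟨w, hw, rfl⟩ := mem_image.1 hr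
    exact (h.mem w (mR w hw).2.2).1
  have c1 := h.rows (S := (R.image ℓ).filter fun r => ar r (b - m) < a + 2 * m')
    ((filter_subset _ _).trans sub) (a1 := a) (a2 := a + 2 * m') (b1 := b - m) (m := m)
    fun r hr b' e1 e2 => by
      obtain ⟨hr1, hr2⟩ := mem_filter.1 hr
      obtain ⟨w, hw, rfl⟩ := mem_image.1 hr1
      obtain ⟨u1, u2, u3⟩ := mR w hw
      obtain ⟨v1, v2⟩ := h.mem w u3
      have t1 := h.anti _ v1 (show b' ≤ w.2 by linarith)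
      have t2 := h.anti _ v1 e1
      constructor <;> linarith
  have c2 := h.rows (S := (R.image ℓ).filter fun r => ¬ ar r (b - m) < a + 2 * m')
    ((filter_subset _ _).trans sub) (a1 := a - m') (a2 := a + m') (b1 := b + m) (m := m)
    fun r hr b' e1 e2 => by
      obtain ⟨hr1, hr2⟩ := mem_filter.1 hr
      have t0 := hn r (sub hr1) (not_lt.1 hr2)
      obtain ⟨w, hw, rfl⟩ := mem_image.1 hr1
      obtain ⟨u1, u2, u3⟩ := mR w hw
      obtain ⟨v1, v2⟩ := h.mem w u3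
      have t1 := h.anti _ v1 (show w.2 ≤ b' by linarith)
      have t2 := h.anti _ v1 (show b' ≤ b + 2 * m by linarith)
      constructor <;> linarith
  have c3 := card_filter_add_card_filter_not (s := R.image ℓ) fun r => ar r (b - m) < a + 2 * m'
  have k0' : τ * (m' * m) - δ ≤ R.card := by
    rw [hR]
    refine le_of_eq_of_le ?_ (k0.trans_eq ?_)
    · push_cast; ring
    · congr
  have c0' : (R.card : ℝ) ≤ m' * (R.image ℓ).card := by exact_mod_cast c0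
  have c4 : ((R.image ℓ).card : ℝ) * m ≤ 4 * K * (m' * m) + 2 * δ := by
    rw [← c3]
    push_cast at k1 k2 ⊢
    linarith
  have p1 : (0 : ℝ) ≤ m := Nat.cast_nonneg m
  have p2 : (0 : ℝ) ≤ m' := Nat.cast_nonneg m'
  have p3 : (m' : ℝ) ≤ m := by exact_mod_cast hm
  have p4 : (0 : ℝ) < m := by
    refine lt_of_le_of_ne p1 fun e => ?_
    rw [← e] at hδ
    linarith
  have q1 := mul_le_mul_of_nonneg_right (k0'.trans c0') p1
  have q2 := mul_le_mul_of_nonneg_left c4 p2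
  have q3 := mul_le_mul_of_nonneg_right hK (mul_nonneg p1 p2)
  have q4 := mul_le_mul_of_nonneg_left p3 hδ0
  have q5 := mul_lt_mul_of_pos_right hδ p4
  nlinarith

theorem strip {X : ℤ → ℤ → ℝ} (hG : GD lam mu X) {y : Z2} {M : ℕ} {τ K δ : ℝ}
    (hc : CRa tp g y M τ K δ) (r0 : 0 ≤ y.1 - M) (r1 : y.1 + M < n0) {m m' : ℕ} (hm : m' ≤ m)
    (hK : 8 * K * m' ≤ τ * m) (hδ0 : 0 ≤ δ) (hδ : 6 * δ < τ * m * m') {A B : ℤ}
    (h1 : y.1 - M ≤ A) (h2 : A + 3 * m' + 1 ≤ y.1 + M) (h3 : y.2 - M ≤ B)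
    (h4 : B + 3 * m ≤ y.2 + M) :
    X A B - X (A + 3 * m') B ≤ 2 * (X A (B + 3 * m) - X A B) := by
  have m0 : (0 : ℤ) ≤ m := Int.natCast_nonneg m
  have m0' : (0 : ℤ) ≤ m' := Int.natCast_nonneg m'
  obtain ⟨r, hr, e1, e2⟩ := h.count hc (a := A + m' + 1) (b := B + m) (by linarith) (by linarith)
    (by linarith) (by linarith) hm hK hδ0 hδ
  rw [add_sub_cancel_right] at e1
  rw [show B + m + 2 * m = B + 3 * m by ring] at e2
  obtain ⟨x1, u1, v1⟩ := h.pt r hr B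
  obtain ⟨x2, u2, v2⟩ := h.pt r hr (B + 3 * m)
  exact hG.strip_geo (by linarith) (by linarith) (h.slope r hr) u1 u2
    ((v1 _ (by linarith) (by linarith)).1 (by linarith)).le
    (not_lt.1 fun k => by linarith [(v2 A (by linarith) (by linarith)).2 k])

theorem half {X : ℤ → ℤ → ℝ} (hG : GD lam mu X) {y : Z2} {n : ℕ} {τ K δ : ℝ}
    (hc : CRa tp g y (6 * n) τ K δ) (r0 : 0 ≤ y.1 - 6 * n) (r1 : y.1 + 6 * n < n0) {m m' J : ℕ}
    (hm : m' ≤ m) (hK : 8 * K * m' ≤ τ * m) (hδ0 : 0 ≤ δ) (hδ : 6 * δ < τ * m * m')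
    (hn : 3 * m ≤ n) (hn1 : 1 ≤ n) (hJ : 7 * n ≤ 3 * m' * J) (A B : ℤ) (h1 : y.1 - 3 * n ≤ A)
    (h2 : A ≤ y.1 + 3 * n) (h3 : y.2 - 3 * n ≤ B) (h4 : B ≤ y.2 + 3 * n) :
    X (y.1 - 3 * n) B - X (y.1 + 3 * n + 3 * m) B ≤ 16 ^ J * (X A (B + 3 * m) - X A B) := by
  have m0' : (0 : ℤ) ≤ m' := Int.natCast_nonneg m'
  have e1 : (m' : ℤ) ≤ m := by exact_mod_cast hm
  have e2 : 3 * (m : ℤ) ≤ n := by exact_mod_cast hn
  have e3 : (1 : ℤ) ≤ n := by exact_mod_cast hn1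
  have e4 : 7 * (n : ℤ) ≤ 3 * m' * J := by exact_mod_cast hJ
  refine hG.tot (s := 3 * m') (by linarith) (by linarith) (fun A' k1 k2 => ?_) (by linarith) h1
    (by linarith)
  refine h.strip hG hc ?_ ?_ hm hK hδ0 hδ ?_ ?_ ?_ ?_ <;> push_cast <;> linarith

end SD

theorem mem_box {y w : Z2} {u : ℕ} :
    w ∈ box y u ↔ y.1 - u ≤ w.1 ∧ w.1 ≤ y.1 + u ∧ y.2 - u ≤ w.2 ∧ w.2 ≤ y.2 + u := by
  simp only [box, mem_product, mem_Icc, and_assoc]

/-- Quasi-symmetry of a grid with regular counts. -/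
theorem geo_abs (τ : ℝ) (hτ : 0 < τ) (K : ℝ) : ∃ (C ε : ℝ) (n1 : ℕ), 0 < ε ∧
    ∀ (lam mu : ℤ → ℝ → ℝ) (X : ℤ → ℤ → ℝ) (a0 b0 : ℤ) (tp : Z2 → Bool) (g : Z2 → ℕ)
      (L L' : Finset Pt) (ℓ ℓ' : Z2 → Pt) (ar br : Pt → ℤ → ℤ) (vl vl' : Pt → ℝ → ℝ),
      GD lam mu X → SD lam mu a0 tp g L ℓ ar vl →
      SD (fun b x => mu b (-x)) (fun a x => lam a (-x)) b0 (fun w => tp w.swap)
        (fun w => g w.swap) L' ℓ' br vl' →
      (∀ w w', tp w = true → tp w' = true → vx lam X w = vx lam X w' → w = w') →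
      ∀ (y : Z2) (n : ℕ), n1 ≤ n → 0 ≤ y.1 - 6 * n → y.1 + 6 * n < a0 → 0 ≤ y.2 - 6 * n →
        y.2 + 6 * n < b0 → CRa tp g y (6 * n) τ K (ε * (n : ℝ) ^ 2) →
        (∀ w1 ∈ box y (3 * n), ∀ w2 ∈ box y (3 * n), ∀ w3 ∈ box y (3 * n), ∀ w4 ∈ box y (3 * n),
          (n : ℤ) ≤ max |w1.1 - w2.1| |w1.2 - w2.2| →
          ‖vx lam X w3 - vx lam X w4‖ ≤ C * ‖vx lam X w1 - vx lam X w2‖) ∧
        vx lam X (y + ((n : ℤ), (n : ℤ))) ≠ vx lam X (y - ((n : ℤ), (n : ℤ))) := by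
  classical
  obtain ⟨J, hJ1, hJ⟩ : ∃ J : ℕ, 1 ≤ J ∧ 8 * K ≤ τ * J := by
    refine ⟨⌈8 * K / τ⌉₊ + 1, by omega, ?_⟩
    have := Nat.le_ceil (8 * K / τ)
    rw [div_le_iff₀ hτ] at this
    push_cast
    linarith
  have hJr : (1 : ℝ) ≤ J := by exact_mod_cast hJ1
  refine ⟨5 * (16 ^ (14 * J)) ^ 3, τ / (300 * J), 3 * J + ⌈1 / τ⌉₊, by positivity, ?_⟩
  intro lam mu X a0 b0 tp g L L' ℓ ℓ' ar br vl vl' hG h1 h2 hinj y n hn r0 r1 r2 r3 hc
  have hn1 : 1 ≤ n := by omega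
  have hnr : (1 : ℝ) ≤ n := by exact_mod_cast hn1
  constructor
  · obtain ⟨m', hm'⟩ : ∃ m', m' = n / (3 * J) := ⟨_, rfl⟩
    have a1 : 3 * (J * m') ≤ n := by
      rw [hm', ← mul_assoc]
      exact Nat.mul_div_le _ _
    have a2 : 1 ≤ m' := by
      rw [hm', Nat.le_div_iff_mul_le (by omega)]
      omega
    have a3 : n ≤ 6 * (J * m') := by
      have := Nat.lt_mul_div_succ n (show 0 < 3 * J by omega)
      rw [← hm'] at this
      nlinarith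
    have b1 : m' ≤ J * m' := Nat.le_mul_of_pos_left _ hJ1
    have p1 : (1 : ℝ) ≤ m' := by exact_mod_cast a2
    have b2 : 8 * K * m' ≤ τ * ((J * m' : ℕ) : ℝ) := by
      push_cast
      nlinarith
    have b3 : 0 ≤ τ / (300 * J) * (n : ℝ) ^ 2 := by positivity
    have b4 : 6 * (τ / (300 * J) * (n : ℝ) ^ 2) < τ * ((J * m' : ℕ) : ℝ) * m' := by
      have a3' : (n : ℝ) ≤ 6 * (J * m') := by exact_mod_cast a3
      have s1 : (n : ℝ) ^ 2 ≤ (6 * (J * m')) ^ 2 := pow_le_pow_left₀ (by positivity) a3' 2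
      have s2 : τ / (300 * J) * (6 * (J * m')) ^ 2 = 36 / 300 * (τ * (J * m') * m') := by
        field_simp
        ring
      have s3 := mul_le_mul_of_nonneg_left s1 (show 0 ≤ τ / (300 * J) by positivity)
      have s4 : 0 < τ * (J * m') * m' := by positivity
      push_cast
      linarith
    have b5 : 7 * n ≤ 3 * m' * (14 * J) := by nlinarith
    have H1 := h1.half hG hc r0 r1 b1 b2 b3 b4 a1 hn1 b5
    have H2 := h2.half hG.refl hc.swap r2 r3 b1 b2 b3 b4 a1 hn1 b5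
    intro w1 k1 w2 k2 w3 k3 w4 k4 hw
    rw [mem_box] at k1 k2 k3 k4
    push_cast at k1 k2 k3 k4
    have a1' : 3 * ((J * m' : ℕ) : ℤ) ≤ n := by exact_mod_cast a1
    refine hG.qs (M := 3 * ((J * m' : ℕ) : ℤ)) (by positivity) (one_le_pow₀ (by norm_num)) H1
      (fun A B u1 u2 u3 u4 => ?_) k1 k2 k3 k4 (a1'.trans hw)
    have := H2 B A u3 u4 u1 u2
    simp only [Prod.fst_swap] at this
    linarith
  · intro e
    have n0 : (0 : ℤ) ≤ n := Int.natCast_nonneg n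
    obtain ⟨k0, -⟩ := hc (y.1 - n) (y.1 + n) (y.2 - n) (y.2 + n) (by push_cast; linarith)
      (by linarith) (by push_cast; linarith) (by push_cast; linarith) (by linarith)
      (by push_cast; linarith)
    have key : ∀ w ∈ (Ico (y.1 - n) (y.1 + n) ×ˢ Ico (y.2 - n) (y.2 + n)).filter
        fun w => tp w = true, tp w = true ∧ vx lam X w = vx lam X (y - ((n : ℤ), (n : ℤ))) := by
      intro w hw
      simp only [mem_filter, mem_product, mem_Ico] at hw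
      exact ⟨hw.2, hG.const e hw.1.1.1 hw.1.1.2.le hw.1.2.1 hw.1.2.2.le⟩
    have c1 : (((Ico (y.1 - n) (y.1 + n) ×ˢ Ico (y.2 - n) (y.2 + n)).filter
        fun w => tp w = true).card : ℝ) ≤ 1 := by
      exact_mod_cast card_le_one.2 fun w hw w' hw' =>
        hinj w w' (key w hw).1 (key w' hw').1 ((key w hw).2.trans (key w' hw').2.symm)
    have c2 : τ * (4 * (n : ℝ) ^ 2) - τ / (300 * J) * (n : ℝ) ^ 2 ≤ 1 := by
      refine le_of_eq_of_le ?_ (k0.trans ?_)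
      · push_cast; ring
      · refine le_of_eq_of_le ?_ c1
        congr
    have c3 : τ / (300 * J) ≤ τ := div_le_self hτ.le (by linarith)
    have c4 : 1 ≤ τ * n := by
      have u1 := Nat.le_ceil (1 / τ)
      have u2 : ((⌈1 / τ⌉₊ : ℕ) : ℝ) ≤ n := by exact_mod_cast (by omega : ⌈1 / τ⌉₊ ≤ n)
      have u3 := u1.trans u2
      rw [div_le_iff₀ hτ] at u3
      linarith
    have c5 := mul_le_mul_of_nonneg_right c3 (sq_nonneg (n : ℝ))
    nlinarith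

end ECub.D
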