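import Pool.Agent.P.MP_029dcd_co.F.D.Cell
import Pool.Agent.P.MP_029dcd_co.F.D.Strip

/-! The cell structure of a finite configuration satisfies the axioms. -/

set_option autoImplicit false

namespace ECub.D

open CubicStab Finset
open scoped ENNReal

variable {P : Fin 3 → Finset Pt} {T : Finset (Fin 3 → Pt)} {k N : ℕ}

theorem near_of (hs : Std P) {w : Z2} {z : Pt}
    (h0 : lam P (w.1 - 1) z.1 ≤ z.2 ∧ z.2 ≤ lam P w.1 z.1)
    (h1 : mu P (w.2 - 1) z.1 ≤ z.2 ∧ z.2 ≤ mu P w.2 z.1) :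
    0 ≤ ((GG P T).v w).2 - z.2 ∧
      ((GG P T).v w).2 - z.2 ≤ (GG P T).cs w ∧ |z.1 - ((GG P T).v w).1| ≤ 2 * (GG P T).cs w := by
  obtain ⟨a, b⟩ := (gd hs).near h0.1 h0.2 h1.1 h1.2
  have e : (GG P T).cs w = lam P w.1 (XX P w.1 w.2) -
    lam P (w.1 - 1) (XX P (w.1 - 1) (w.2 - 1)) := rfl
  have e1 : ((GG P T).v w).1 = XX P w.1 w.2 := rfl
  have e2 : ((GG P T).v w).2 = lam P w.1 (XX P w.1 w.2) := rfl
  have := abs_nonneg (z.1 - XX P w.1 w.2)
  rw [e, e1, e2]
  refine ⟨?_, ?_, ?_⟩ <;> linarith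

theorem near_cell (hs : Std P) {w : Z2} (hw : InR P w) {z : Pt} (e : cellz P z = w) :
    0 ≤ ((GG P T).v w).2 - z.2 ∧
      ((GG P T).v w).2 - z.2 ≤ (GG P T).cs w ∧ |z.1 - ((GG P T).v w).1| ≤ 2 * (GG P T).cs w :=
  near_of hs (lev_between 1 (congrArg Prod.fst e) hw.1 hw.2.1)
    (lev_between (-1) (congrArg Prod.snd e) hw.2.2.1 hw.2.2.2)

theorem vis_near (h : TS k N P T) (hs : Std P) {w : Z2} (hw : InR P w) {p : Pt}
    (hp : p ∈ vis P w) : ∃ z, On p z ∧ 0 ≤ ((GG P T).v w).2 - z.2 ∧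
      ((GG P T).v w).2 - z.2 ≤ (GG P T).cs w ∧ |z.1 - ((GG P T).v w).1| ≤ 2 * (GG P T).cs w := by
  obtain ⟨hU, ⟨q, hq, hne, e⟩ | ⟨h1, e⟩ | ⟨h0, e⟩⟩ := mem_vis.1 hp
  · exact ⟨_, (xpt_on (fst_ne h hU hq hne.symm)).1, near_cell hs hw e⟩
  · have r := (rx_spec hs (slr hs hU h1) w.2).1
    refine ⟨(rx P p w.2, val p (rx P p w.2)), rfl, near_of hs
      (lev_between 1 (congrArg Prod.fst e) hw.1 hw.2.1) ⟨?_, r.le⟩⟩
    exact ((gd hs).mm _ _ _ (by omega)).trans r.ge
  · have r := (cx_spec hs (slc hs hU h0) w.1).1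
    refine ⟨(cx P p w.1, val p (cx P p w.1)), rfl, near_of hs ⟨?_, r.ge⟩
      (lev_between (-1) (congrArg Prod.snd e) hw.2.2.1 hw.2.2.2)⟩
    exact ((gd hs).lm _ _ _ (by omega)).trans r.le

theorem loc_cell (hs : Std P) {w : Z2} {u : ℕ} (hw : ∀ x ∈ box w (u + 1), InR P x) {z : Pt}
    (hz : 2 * ‖z - (GG P T).v w‖ < (GG P T).sepr w u) : cellz P z ∈ box w u := by
  simp only [Gal.sepr, lt_min_iff] at hz
  obtain ⟨a1, a2, a3, a4⟩ := (gd hs).loc hz.1.1 hz.1.2 hz.2.1 hz.2.2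
  have u0 : (0 : ℤ) ≤ u := Int.natCast_nonneg u
  have i1 := hw (w.1 - u, w.2 - u) (mem_box.2 (by push_cast; omega))
  have i2 := hw (w.1 + u, w.2 + u) (mem_box.2 (by push_cast; omega))
  have b1 := bel_between 1 (zero_le_one.trans i1.1) (by simp only; omega) i2.2.1 a1 a2
  have b2 := bel_between (-1) (zero_le_one.trans i1.2.2.1) (by simp only; omega) i2.2.2.2 a3 a4
  exact mem_box.2 ⟨b1.1, b1.2, b2.1, b2.2⟩

theorem close {f g : ℝ → ℝ} {x x' : ℝ} (e : f x = g x)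
    (h : ∀ x x', x ≤ x' → (1 / 2 * (x' - x) ≤ (f x' - g x') - (f x - g x) ∨
      1 / 2 * (x' - x) ≤ (f x - g x) - (f x' - g x')) ∧ |g x' - g x| ≤ 2 * (x' - x)) :
    ‖((x, f x) : Pt) - (x', g x')‖ ≤ 4 * |f x' - g x'| := by
  have a1 := le_abs_self (f x' - g x')
  have a2 := neg_abs_le (f x' - g x')
  rcases le_total x x' with c | c
  · obtain ⟨h1, h2⟩ := h x x' c
    rw [abs_le] at h2
    refine nrm_le ?_ ?_ ?_ ?_ <;> simp only [Prod.fst_sub, Prod.snd_sub] <;>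
      rcases h1 with h1 | h1 <;> linarith [h2.1, h2.2]
  · obtain ⟨h1, h2⟩ := h x' x c
    rw [abs_le] at h2
    refine nrm_le ?_ ?_ ?_ ?_ <;> simp only [Prod.fst_sub, Prod.snd_sub] <;>
      rcases h1 with h1 | h1 <;> linarith [h2.1, h2.2]

theorem canc_loc (h : TS k N P T) (hs : Std P) {p : Pt} (hp : p ∈ UU P) {w : Z2} {u : ℕ}
    (hw : ∀ x ∈ box w (u + 1), InR P x)
    (hz : 100 * |p.1 * ((GG P T).v w).1 + p.2 - ((GG P T).v w).2| < (GG P T).sepr w u) :
    canc P p (fm P p) (idx (fm P p) w) ∈ box w (u + 1) := by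
  have u0 : (0 : ℤ) ≤ u := Int.natCast_nonneg u
  have n0 := abs_nonneg (p.1 * ((GG P T).v w).1 + p.2 - ((GG P T).v w).2)
  unfold canc idx
  split_ifs with h1
  · have sp := slc hs hp (not_mem0 h h1)
    have c : ‖((cx P p w.1, val p (cx P p w.1)) : Pt) - (GG P T).v w‖ ≤
        4 * |p.1 * ((GG P T).v w).1 + p.2 - ((GG P T).v w).2| :=
      close (f := val p) (g := lam P w.1) (cx_spec hs sp w.1).1.symm fun x x' hx => by
        have h2 := lam_s hs w.1 x x' hx
        have h4 := mul_le_mul_of_nonneg_right sp.2 (sub_nonneg.2 hx)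
        refine ⟨Or.inr (by linarith [h2.1, val_sub p x x']), abs_le.2 ⟨?_, ?_⟩⟩ <;>
          linarith [h2.1, h2.2]
    have := mem_box.1 (loc_cell (T := T) hs hw (z := (cx P p w.1, val p (cx P p w.1)))
      (by linarith))
    simp only [cellz] at this
    exact mem_box.2 (by simp only [colc]; push_cast; omega)
  · have sp := slr hs hp (not_mem1 h h1)
    have e : (GG P T).v w = (XX P w.1 w.2, mu P w.2 (XX P w.1 w.2)) :=
      Prod.ext rfl ((gd hs).cr _ _)
    have c : ‖((rx P p w.2, val p (rx P p w.2)) : Pt) - (GG P T).v w‖ ≤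
        4 * |p.1 * ((GG P T).v w).1 + p.2 - ((GG P T).v w).2| := by
      rw [e]
      exact close (f := val p) (g := mu P w.2) (rx_spec hs sp w.2).1 fun x x' hx => by
        have h2 := mu_s hs w.2 x x' hx
        have h4 := mul_le_mul_of_nonneg_right sp.1 (sub_nonneg.2 hx)
        refine ⟨Or.inl (by linarith [h2.1, val_sub p x x']), abs_le.2 ⟨?_, ?_⟩⟩ <;>
          linarith [h2.1, h2.2]
    have := mem_box.1 (loc_cell (T := T) hs hw (z := (rx P p w.2, val p (rx P p w.2)))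
      (by linarith))
    simp only [cellz] at this
    exact mem_box.2 (by simp only [rowc]; push_cast; omega)

theorem sum_g (h : TS k N P T) : ∑ w ∈ rect P, (vis P w).card ≤ 100 * N ^ 2 := by
  classical
  have key : ∀ p ∈ UU P, ((rect P).filter fun w => p ∈ vis P w).card ≤ 5 * N := by
    intro p _
    have sub : ((rect P).filter fun w => p ∈ vis P w) ⊆
        ((UU P).image fun q => cellz P (xpt p q)) ∪ (Ico (0 : ℤ) (P 1).card).image (rowc P p) ∪
          (Ico (0 : ℤ) (P 0).card).image (colc P p) := by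
      intro w hw
      obtain ⟨h1, h2⟩ := mem_filter.1 hw
      obtain ⟨r1, r2⟩ := mem_product.1 h1
      simp only [mem_union, mem_image]
      obtain ⟨-, ⟨q, hq, -, e⟩ | ⟨-, e⟩ | ⟨-, e⟩⟩ := mem_vis.1 h2
      · exact Or.inl (Or.inl ⟨q, hq, e⟩)
      · exact Or.inl (Or.inr ⟨_, r2, e⟩)
      · exact Or.inr ⟨_, r1, e⟩
    have c1 := card_image_le (s := UU P) (f := fun q => cellz P (xpt p q))
    have c2 := card_image_le (s := Ico (0 : ℤ) (P 1).card) (f := rowc P p)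
    have c3 := card_image_le (s := Ico (0 : ℤ) (P 0).card) (f := colc P p)
    simp only [Int.card_Ico, sub_zero, Int.toNat_natCast] at c2 c3
    have c4 := (card_le_card sub).trans ((card_union_le _ _).trans
      (Nat.add_le_add_right (card_union_le _ _) _))
    linarith [card_UU h, h.card_le 0, h.card_le 1]
  calc ∑ w ∈ rect P, (vis P w).card
      = ∑ w ∈ rect P, ((UU P).filter fun p => p ∈ vis P w).card := by
        refine sum_congr rfl fun w _ => congrArg card ?_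
        ext p
        exact ⟨fun hp => mem_filter.2 ⟨vis_UU hp, hp⟩, fun hp => (mem_filter.1 hp).2⟩
    _ = ∑ p ∈ UU P, ((rect P).filter fun w => p ∈ vis P w).card := by
        simp only [card_filter]
        exact sum_comm
    _ ≤ (UU P).card * (5 * N) := sum_le_card_nsmul _ _ _ key
    _ ≤ 3 * N * (5 * N) := Nat.mul_le_mul_right _ (card_UU h)
    _ ≤ 100 * N ^ 2 := by nlinarith

theorem tsum_lab (w : Z2) (F : Pt → ℝ≥0∞) {G : ℕ → ℝ≥0∞}
    (h : ∀ j, G j ≤ if j < (vis P w).card then F (lab P (w, j)) else 0) :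
    ∑' j, G j ≤ ∑ p ∈ UU P, F p := by
  refine (ENNReal.tsum_le_tsum h).trans ?_
  rw [tsum_eq_sum (s := range (vis P w).card) fun j hj => if_neg fun c => hj (mem_range.2 c)]
  refine le_trans (le_of_eq ?_) (sum_le_sum_of_subset (f := F) fun p (hp : p ∈ vis P w) => vis_UU hp)
  refine sum_bij (fun j _ => lab P (w, j)) (fun j hj => lab_vis (l := (w, j)) (mem_range.1 hj))
    (fun j hj j' hj' e => lab_inj (mem_range.1 hj) (mem_range.1 hj') e)
    (fun p hp => ⟨_, mem_range.2 (ix_spec hp).1, (ix_spec hp).2⟩) fun j hj => if_pos (mem_range.1 hj)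

theorem cast_le {a : ℕ} (h : a ≤ 100 * N ^ 2) : (a : ℝ≥0∞) ≤ 100 * (N : ℝ≥0∞) ^ 2 := by
  exact_mod_cast h

theorem sum_cr (h : TS k N P T) : ∑ w ∈ rect P, (GG P T).ncr w ≤ 100 * (N : ℝ≥0∞) ^ 2 := by
  classical
  have key : ∀ w, (GG P T).ncr w ≤ ∑ p ∈ UU P, ∑ q ∈ UU P,
      if cellz P (xpt p q) = w then (1 : ℝ≥0∞) else 0 := by
    intro w
    rw [Gal.ncr, ENNReal.tsum_prod']
    refine tsum_lab w _ fun j => ?_
    split_ifs with c
    · refine tsum_lab w _ fun j' => ?_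
      by_cases d : (GG P T).cr w j j' = true
      · rw [if_pos d, if_pos (cr_iff.1 d).2.1, if_pos (cr_iff.1 d).2.2.2]
      · rw [if_neg d]
        exact zero_le
    · exact le_of_eq (ENNReal.tsum_eq_zero.2 fun j' => if_neg fun d => c (cr_iff.1 d).1)
  refine (sum_le_sum fun w _ => key w).trans ?_
  rw [sum_comm]
  refine le_trans (sum_le_sum (g := fun _ => ((UU P).card : ℝ≥0∞)) fun p _ => ?_) ?_
  · rw [sum_comm]
    refine (sum_le_card_nsmul _ _ 1 fun q _ => ?_).trans (by simp)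
    rw [sum_ite_eq]
    split_ifs
    · exact le_rfl
    · exact zero_le
  · rw [sum_const, nsmul_eq_mul, ← Nat.cast_mul]
    exact cast_le (by nlinarith [card_UU h])

/-- displacement of the canonical cell -/
noncomputable def dsp (P : Fin 3 → Finset Pt) (p : Pt) (m : ℤ) : ℕ :=
  (oth (fm P p) (canc P p (fm P p) (m + 1)) - oth (fm P p) (canc P p (fm P p) m)).natAbs

theorem sum_dsp (h : TS k N P T) (hs : Std P) {p : Pt} (hp : p ∈ UU P) :
    ∑ m ∈ Ico (0 : ℤ) N, dsp P p m ≤ N := by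
  unfold dsp oth canc
  split_ifs with h1
  · exact (tv_sum (P 1) p (Or.inr (cx_anti hs (slc hs hp (not_mem0 h h1)))) N).trans (h.card_le 1)
  · exact (tv_sum (P 0) p (Or.inl (rx_mono hs (slr hs hp (not_mem1 h h1)))) N).trans (h.card_le 0)

open Classical in
theorem disp_le (w : Z2) (j : ℕ) : (GG P T).disp (w, j) ≤
    if j < (vis P w).card then (fun p => if canc P p (fm P p) (idx (fm P p) w) = w then
      (dsp P p (idx (fm P p) w) : ℝ≥0∞) else 0) (lab P (w, j)) else 0 := by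
  obtain ⟨p, hp⟩ : ∃ p, p = lab P (w, j) := ⟨_, rfl⟩
  have hf : (GG P T).fam (w, j) = fm P p := by rw [hp]; rfl
  rw [Gal.disp, hf, tsum_eq_single (canc P p (fm P p) (idx (fm P p) w + 1),
    ix P (canc P p (fm P p) (idx (fm P p) w + 1)) p)]
  · simp only [← hp]
    by_cases c : (GG P T).Can (fm P p) (w, j)
    · obtain ⟨c1, -, c2⟩ := can_iff.1 c
      rw [← hp] at c2
      rw [if_pos c1, if_pos c2]
      split_ifs
      · rw [dsp, c2]
      · exact zero_le
    · rw [if_neg fun d => c d.1]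
      exact zero_le
  · rintro ⟨w', j'⟩ hne
    refine if_neg fun d => hne ?_
    obtain ⟨c1, -, c2⟩ := can_iff.1 d.2.1
    have e := same_iff.1 d.2.2.1
    rw [← e, ← hp, d.2.2.2] at c2
    simp only at c1 c2
    have m : p ∈ vis P w' := by rw [hp, e]; exact lab_vis (l := (w', j')) c1
    rw [c2]
    exact Prod.ext rfl (lab_inj c1 (ix_spec m).1 (by rw [(ix_spec m).2, hp, e]))

theorem sum_disp (h : TS k N P T) (hs : Std P) :
    ∑ w ∈ rect P, ∑' j : ℕ, (GG P T).disp (w, j) ≤ 100 * (N : ℝ≥0∞) ^ 2 := by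
  classical
  refine (sum_le_sum fun w _ => tsum_lab (P := P) w (fun p =>
    if canc P p (fm P p) (idx (fm P p) w) = w then (dsp P p (idx (fm P p) w) : ℝ≥0∞) else 0)
    (disp_le w)).trans ?_
  rw [sum_comm]
  refine le_trans (sum_le_sum (g := fun _ => (N : ℝ≥0∞)) fun p hp => ?_) ?_
  · rw [← sum_filter, ← Nat.cast_sum, Nat.cast_le]
    refine le_trans ?_ (sum_dsp h hs hp)
    rw [← sum_image (g := idx (fm P p)) (f := dsp P p) fun w hw w' hw' e => by
      rw [← (mem_filter.1 hw).2, ← (mem_filter.1 hw').2, e]]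
    refine sum_le_sum_of_subset fun m hm => ?_
    obtain ⟨w, hw, rfl⟩ := mem_image.1 hm
    obtain ⟨r1, r2⟩ := mem_product.1 (mem_filter.1 hw).1
    have a0 := h.card_le 0
    have a1 := h.card_le 1
    rw [mem_Ico] at r1 r2 ⊢
    unfold idx
    split_ifs <;> omega
  · rw [sum_const, nsmul_eq_mul, ← Nat.cast_mul]
    exact cast_le (by nlinarith [card_UU h])

theorem vis_le (h : TS k N P T) {i : Fin 3} {p : Pt} {n : ℕ} {S : Finset (Fin 3 → Pt)}
    (hS : S ⊆ T) (hp : ∀ τ ∈ S, τ i = p) (hn : ∀ τ ∈ S, ∀ τ' ∈ S, τ ≠ τ' →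
      (n : ℤ) ≤ max |(cell P τ).1 - (cell P τ').1| |(cell P τ).2 - (cell P τ').2|) :
    (S.card - 1) * n ≤ 2 * N := by
  obtain ⟨Φ, a1, a2⟩ := exists_tv (P 0) p
  obtain ⟨Ψ, b1, b2⟩ := exists_tv (P 1) p
  have e : ∀ τ ∈ S, cell P τ = cellz P ((xpt (τ 0) (τ 1)).1, val p (xpt (τ 0) (τ 1)).1) := by
    intro τ hτ
    rw [on_eq (hp τ hτ ▸ tr_on h (hS hτ) i), cell]
  have c0 : ((P 0).card : ℤ) ≤ N := by exact_mod_cast h.card_le 0
  have c1 : ((P 1).card : ℤ) ≤ N := by exact_mod_cast h.card_le 1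
  refine card_sep S (fun τ => Φ (xpt (τ 0) (τ 1)).1 + Ψ (xpt (τ 0) (τ 1)).1) n (2 * N)
    (fun a _ b _ => ?_) fun a ha b hb hne => ?_
  · push_cast
    linarith [a2 (xpt (b 0) (b 1)).1 (xpt (a 0) (a 1)).1, b2 (xpt (b 0) (b 1)).1 (xpt (a 0) (a 1)).1]
  · have m := hn a ha b hb hne
    rw [e a ha, e b hb] at m
    simp only [cellz] at m
    refine m.trans (max_le ?_ ?_) <;> rcases le_total (xpt (a 0) (a 1)).1 (xpt (b 0) (b 1)).1 with c | c
    all_goals
      have u := a1 _ _ c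
      have v := b1 _ _ c
      have u' := (abs_nonneg _).trans u
      have v' := (abs_nonneg _).trans v
    · rw [abs_sub_comm]
      exact le_abs.2 (Or.inr (by linarith))
    · exact le_abs.2 (Or.inl (by linarith))
    · rw [abs_sub_comm]
      exact le_abs.2 (Or.inr (by linarith))
    · exact le_abs.2 (Or.inl (by linarith))

theorem tri_cell (h : TS k N P T) (hs : Std P) {τ : Fin 3 → Pt} (hτ : τ ∈ T) :
    tri P T (cell P τ) = τ := by
  obtain ⟨h1, h2⟩ := tri_spec (P := P) ⟨τ, hτ, rfl⟩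
  exact tr_inj h hs h1 hτ h2

theorem finAx (h : TS k N P T) (hs : Std P) : FinAx N P T (GG P T) (lab P) (cell P) where
  lab_mem l hl := mem_fm (lab_UU hl)
  lab_t _ _ := rfl
  lab_s _ _ := rfl
  same_iff _ _ _ _ := same_iff
  same_cell _ _ _ h1 h2 e := lab_inj h1 h2 e
  can_uniq i l l' h1 h2 e e' := by
    obtain ⟨a1, -, a2⟩ := can_iff.1 h1
    obtain ⟨b1, -, b2⟩ := can_iff.1 h2
    have e := same_iff.1 e
    obtain ⟨w, j⟩ := l
    obtain ⟨w', j'⟩ := l'
    rw [e, e', b2] at a2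
    simp only at a2
    subst a2
    exact Prod.ext rfl (lab_inj a1 b1 e)
  cr_valid w j j' c := ⟨(cr_iff.1 c).1, (cr_iff.1 c).2.1, fun e => (cr_iff.1 c).2.2.1 (by rw [e])⟩
  cr_symm w j j' c := by
    obtain ⟨c1, c2, c3, c4⟩ := cr_iff.1 c
    have o := xpt_on (fst_ne h (lab_UU (l := (w, j)) c1) (lab_UU (l := (w, j')) c2) c3)
    exact cr_iff.2 ⟨c2, c1, c3.symm, by rw [xpt_eq c3.symm o.2 o.1, c4]⟩
  cr_uniq w j j' w' m m' c c' e e' := by
    rw [← (cr_iff.1 c).2.2.2, same_iff.1 e, same_iff.1 e', (cr_iff.1 c').2.2.2]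
  tp_cell w c := tp_iff.1 c
  cell_tp τ hτ := by
    have c : (GG P T).tp (cell P τ) = true := tp_iff.2 ⟨τ, hτ, rfl⟩
    refine ⟨c, (tr_vx h hs hτ).2, fun i => ((tlab_spec h c i).2).trans ?_⟩
    rw [tri_cell h hs hτ]
  cell_inj τ hτ τ' hτ' e := tr_inj h hs hτ hτ' e
  tp_can w c i := by
    obtain ⟨h1, h2⟩ := tri_spec (tp_iff.1 c)
    obtain ⟨a1, a2⟩ := tlab_spec h c i
    have a3 : lab P ((GG P T).tlab w i) = tri P T w i := a2
    refine can_iff.2 ⟨a1, by rw [a3, fm_eq h (h.mem _ h1 i)], ?_⟩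
    rw [a3]
    change canc P _ i (idx i w) = w
    unfold canc idx
    split_ifs with hi
    · have := tr_col h hs h1 (i := i) (by rw [hi]; decide)
      rwa [h2] at this
    · have := tr_row h hs h1 hi
      rwa [h2] at this
  tp_cr w c i i' hi := by
    obtain ⟨h1, h2⟩ := tri_spec (tp_iff.1 c)
    obtain ⟨a1, a2⟩ := tlab_spec h c i
    obtain ⟨b1, b2⟩ := tlab_spec h c i'
    refine (cr_iff (j := ix P w (tri P T w i)) (j' := ix P w (tri P T w i'))).2 ⟨a1, b1, ?_, ?_⟩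
    · rw [a2, b2]
      exact tr_ne h h1 hi
    · rw [a2, b2, tr_x h h1 hi, h2]
  tp_on w c i := by
    obtain ⟨h1, h2⟩ := tri_spec (tp_iff.1 c)
    have a3 : lab P ((GG P T).tlab w i) = tri P T w i := (tlab_spec h c i).2
    have o := tr_on h h1 i
    rw [← (tr_vx h hs h1).1, h2, ← a3] at o
    exact o.symm
  cone1 w _ _ := by
    have r := (gd hs).row (a := w.1) (a' := w.1 + 1) (by omega) w.2
    simp only [GG, vx, Prod.fst_add, Prod.snd_add, add_zero]
    exact abs_le.2 ⟨by linarith [r.1], by linarith [r.2]⟩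
  cone2 w _ _ := by
    have r := (gd hs).col w.1 (b := w.2) (b' := w.2 + 1) (by omega)
    simp only [GG, vx, Prod.fst_add, Prod.snd_add, add_zero]
    exact abs_le.2 ⟨by linarith [r.1], by linarith [r.2]⟩
  near l hl hw := by
    obtain ⟨z, o, a1, a2, a3⟩ := vis_near h hs hw (lab_vis hl)
    have e : (GG P T).t l * ((GG P T).v l.1).1 + (GG P T).s l - ((GG P T).v l.1).2 =
        -((lab P l).1 * (z.1 - ((GG P T).v l.1).1)) - (((GG P T).v l.1).2 - z.2) := by
      rw [← (o : _ = z.2)]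
      change (lab P l).1 * _ + (lab P l).2 - _ = _
      ring
    have b : |(lab P l).1 * (z.1 - ((GG P T).v l.1).1)| ≤ 101 / 100 * (2 * (GG P T).cs l.1) := by
      rw [abs_mul]
      exact mul_le_mul (sla hs (lab_UU hl)) a3 (abs_nonneg _) (by norm_num)
    rw [e]
    rw [abs_le] at b ⊢
    constructor <;> linarith [b.1, b.2]
  near_cr w j j' hw c := by
    obtain ⟨c1, c2, c3, c4⟩ := cr_iff.1 c
    obtain ⟨o1, o2⟩ := xpt_on (fst_ne h (lab_UU (l := (w, j)) c1) (lab_UU (l := (w, j')) c2) c3)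
    have a3 := (near_cell (T := T) hs hw c4).2.2
    generalize xpt (lab P (w, j)) (lab P (w, j')) = z at o1 o2 a3
    have e : ((GG P T).s (w, j') - (GG P T).s (w, j)) -
        ((GG P T).t (w, j) - (GG P T).t (w, j')) * ((GG P T).v w).1 =
        (z.1 - ((GG P T).v w).1) * ((GG P T).t (w, j) - (GG P T).t (w, j')) := by
      unfold On at o1 o2
      change ((lab P (w, j')).2 - (lab P (w, j)).2) - ((lab P (w, j)).1 - (lab P (w, j')).1) * _ =
        _ * ((lab P (w, j)).1 - (lab P (w, j')).1)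
      linear_combination o2 - o1
    rw [e, abs_mul]
    exact mul_le_mul_of_nonneg_right a3 (abs_nonneg _)
  can_loc l hl w u hw hz := by
    have hp := lab_UU hl
    obtain ⟨w', hw'⟩ : ∃ w', w' = canc P (lab P l) (fm P (lab P l)) (idx (fm P (lab P l)) w) :=
      ⟨_, rfl⟩
    have a0 : idx (fm P (lab P l)) w' = idx (fm P (lab P l)) w := by rw [hw', idx_canc]
    obtain ⟨a1, a2⟩ := ix_spec (hw' ▸ canc_vis h hp (idx (fm P (lab P l)) w) : lab P l ∈ vis P w')
    refine ⟨(w', ix P w' (lab P l)), can_iff.2 ⟨a1, by rw [a2]; rfl, ?_⟩, same_iff.2 a2.symm, a0,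
      hw' ▸ canc_loc h hs hp hw hz⟩
    rw [a2]
    exact (congrArg _ a0).trans hw'.symm
  cr_loc l l' hl hl' ht z o o' w u hw hz := by
    have hne : lab P l ≠ lab P l' := fun e => ht (congrArg Prod.fst e)
    have m := mem_box.1 (loc_cell (T := T) hs hw (z := z)
      (by linarith [norm_nonneg (z - (GG P T).v w)]))
    obtain ⟨a1, a2⟩ := ix_spec (w := cellz P z) (mem_vis.2 ⟨lab_UU hl,
      Or.inl ⟨_, lab_UU hl', hne.symm, by rw [xpt_eq hne o o']⟩⟩)
    obtain ⟨b1, b2⟩ := ix_spec (w := cellz P z) (mem_vis.2 ⟨lab_UU hl',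
      Or.inl ⟨_, lab_UU hl, hne, by rw [xpt_eq hne.symm o' o]⟩⟩)
    refine ⟨cellz P z, mem_box.2 (by push_cast; omega), _, _, cr_iff.2 ⟨a1, b1, ?_, ?_⟩,
      same_iff.2 a2.symm, same_iff.2 b2.symm⟩
    · rwa [a2, b2]
    · rw [a2, b2, xpt_eq hne o o']
  sum_g := sum_g h
  sum_cr := sum_cr h
  sum_disp := sum_disp h hs
  vis _ _ _ _ _ hS hp hn := vis_le h hS hp hn

end ECub.D
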