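import Pool.Agent.P.MP_029dcd_co.F.D.Lev

/-! The cell structure of a finite configuration: definitions and basic facts. -/

set_option autoImplicit false

namespace ECub.D

open CubicStab Finset

section Defs

variable (P : Fin 3 → Finset Pt)

/-- level curves of the first family -/
noncomputable def lam (a : ℤ) : ℝ → ℝ := lev (P 0) 1 a
/-- level curves of the second family -/
noncomputable def mu (b : ℤ) : ℝ → ℝ := lev (P 1) (-1) b
/-- abscissa of a vertex -/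
noncomputable def XX (a b : ℤ) : ℝ := crs (lam P a) (mu P b)
/-- the cell of a point -/
noncomputable def cellz (z : Pt) : Z2 := (bel (P 0) z, bel (P 1) z)
/-- abscissa of the point of a line in a row -/
noncomputable def rx (p : Pt) (b : ℤ) : ℝ := crs (val p) (mu P b)
/-- abscissa of the point of a line in a column -/
noncomputable def cx (p : Pt) (a : ℤ) : ℝ := crs (lam P a) (val p)
/-- the row cell of a line -/
noncomputable def rowc (p : Pt) (b : ℤ) : Z2 := (bel (P 0) (rx P p b, val p (rx P p b)), b)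
/-- the column cell of a line -/
noncomputable def colc (p : Pt) (a : ℤ) : Z2 := (a, bel (P 1) (cx P p a, val p (cx P p a)))
/-- the crossing of two lines -/
noncomputable def xpt (p q : Pt) : Pt :=
  ((q.2 - p.2) / (p.1 - q.1), val p ((q.2 - p.2) / (p.1 - q.1)))

open Classical in
/-- all lines -/
noncomputable def UU : Finset Pt := P 0 ∪ P 1 ∪ P 2

open Classical in
/-- the lines that visit a cell -/
noncomputable def vis (w : Z2) : Finset Pt :=
  (UU P).filter fun p => (∃ q ∈ UU P, q ≠ p ∧ cellz P (xpt p q) = w) ∨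
    (p ∉ P 1 ∧ rowc P p w.2 = w) ∨ (p ∉ P 0 ∧ colc P p w.1 = w)

/-- the line of a label -/
noncomputable def lab (l : Lb) : Pt := (vis P l.1).toList.getD l.2 0

open Classical in
/-- the index of a line in a cell -/
noncomputable def ix (w : Z2) (p : Pt) : ℕ := (vis P w).toList.idxOf p

open Classical in
/-- the family of a line -/
noncomputable def fm (p : Pt) : Fin 3 := if p ∈ P 0 then 0 else if p ∈ P 1 then 1 else 2

/-- the canonical cell of a line -/
noncomputable def canc (p : Pt) (i : Fin 3) (k : ℤ) : Z2 :=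
  if i = 1 then colc P p k else rowc P p k

/-- the cell of a triple -/
noncomputable def cell (τ : Fin 3 → Pt) : Z2 := cellz P (xpt (τ 0) (τ 1))

/-- the triple in a cell -/
noncomputable def tri (T : Finset (Fin 3 → Pt)) (w : Z2) : Fin 3 → Pt :=
  Classical.epsilon fun τ => τ ∈ T ∧ cell P τ = w

open Classical in
/-- the cell structure -/
noncomputable def GG (T : Finset (Fin 3 → Pt)) : Gal where
  g w := (vis P w).card
  fam l := fm P (lab P l)
  can l := decide (canc P (lab P l) (fm P (lab P l)) (idx (fm P (lab P l)) l.1) = l.1)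
  same l l' := decide (lab P l = lab P l')
  cr w j j' := decide (j < (vis P w).card ∧ j' < (vis P w).card ∧ lab P (w, j) ≠ lab P (w, j') ∧
    cellz P (xpt (lab P (w, j)) (lab P (w, j'))) = w)
  tp w := decide (∃ τ ∈ T, cell P τ = w)
  tl w i := ix P w (tri P T w i)
  t l := (lab P l).1
  s l := (lab P l).2
  v := vx (lam P) (XX P)

end Defs

variable {P : Fin 3 → Finset Pt} {T : Finset (Fin 3 → Pt)} {k N : ℕ}

theorem mem_UU {p : Pt} : p ∈ UU P ↔ ∃ i, p ∈ P i := by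
  simp only [UU, mem_union, Fin.exists_fin_succ, or_assoc]
  simp

theorem card_UU (h : TS k N P T) : (UU P).card ≤ 3 * N := by
  classical
  have a := card_union_le (P 0 ∪ P 1) (P 2)
  have b := card_union_le (P 0) (P 1)
  have e : (UU P).card = (P 0 ∪ P 1 ∪ P 2).card := by unfold UU; congr
  linarith [h.card_le 0, h.card_le 1, h.card_le 2]

theorem sl0 (hs : Std P) : ∀ p ∈ P 0, 99 / 100 ≤ p.1 ∧ p.1 ≤ 101 / 100 := fun p hp => by
  have : |p.1 - 1| ≤ 1 / 100 := hs 0 p hp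
  rw [abs_le] at this
  constructor <;> linarith [this.1, this.2]

theorem sl1 (hs : Std P) : ∀ p ∈ P 1, -(101 / 100) ≤ p.1 ∧ p.1 ≤ -(99 / 100) := fun p hp => by
  have : |p.1 - -1| ≤ 1 / 100 := hs 1 p hp
  rw [abs_le] at this
  constructor <;> linarith [this.1, this.2]

theorem sl2 (hs : Std P) : ∀ p ∈ P 2, -(1 / 100) ≤ p.1 ∧ p.1 ≤ 1 / 100 := fun p hp => by
  have : |p.1 - 0| ≤ 1 / 100 := hs 2 p hp
  rw [abs_le] at this
  constructor <;> linarith [this.1, this.2]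

theorem UU_cases {p : Pt} (hp : p ∈ UU P) : p ∈ P 0 ∨ p ∈ P 1 ∨ p ∈ P 2 := by
  simpa only [UU, mem_union, or_assoc] using hp

theorem slr (hs : Std P) {p : Pt} (hp : p ∈ UU P) (h1 : p ∉ P 1) :
    -(1 / 100) ≤ p.1 ∧ p.1 ≤ 101 / 100 := by
  rcases UU_cases hp with h | h | h
  · constructor <;> linarith [(sl0 hs p h).1, (sl0 hs p h).2]
  · exact absurd h h1
  · constructor <;> linarith [(sl2 hs p h).1, (sl2 hs p h).2]

theorem slc (hs : Std P) {p : Pt} (hp : p ∈ UU P) (h0 : p ∉ P 0) :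
    -(101 / 100) ≤ p.1 ∧ p.1 ≤ 1 / 100 := by
  rcases UU_cases hp with h | h | h
  · exact absurd h h0
  · constructor <;> linarith [(sl1 hs p h).1, (sl1 hs p h).2]
  · constructor <;> linarith [(sl2 hs p h).1, (sl2 hs p h).2]

theorem sla (hs : Std P) {p : Pt} (hp : p ∈ UU P) : |p.1| ≤ 101 / 100 := by
  rw [abs_le]
  rcases UU_cases hp with h | h | h
  · constructor <;> linarith [(sl0 hs p h).1, (sl0 hs p h).2]
  · constructor <;> linarith [(sl1 hs p h).1, (sl1 hs p h).2]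
  · constructor <;> linarith [(sl2 hs p h).1, (sl2 hs p h).2]

theorem lam_s (hs : Std P) (a : ℤ) (x x' : ℝ) (hx : x ≤ x') :
    99 / 100 * (x' - x) ≤ lam P a x' - lam P a x ∧ lam P a x' - lam P a x ≤ 101 / 100 * (x' - x) :=
  lev_slope (sl0 hs) (by norm_num) (by norm_num) a hx

theorem mu_s (hs : Std P) (b : ℤ) (x x' : ℝ) (hx : x ≤ x') :
    99 / 100 * (x' - x) ≤ mu P b x - mu P b x' ∧ mu P b x - mu P b x' ≤ 101 / 100 * (x' - x) := by
  have := lev_slope (c := -1) (sl1 hs) (by norm_num) (by norm_num) b hx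
  unfold mu
  constructor <;> linarith [this.1, this.2]

theorem XX_spec (hs : Std P) (a b : ℤ) : lam P a (XX P a b) = mu P b (XX P a b) ∧
    ∀ x, lam P a x = mu P b x → x = XX P a b :=
  crs_spec (m := 1) (M := 3) one_pos fun x x' hx => by
    have h1 := lam_s hs a x x' hx
    have h2 := mu_s hs b x x' hx
    constructor <;> linarith [h1.1, h1.2, h2.1, h2.2]

theorem gd (hs : Std P) : GD (lam P) (mu P) (XX P) :=
  ⟨lam_s hs, mu_s hs, fun _ _ x h => lev_mono _ _ h x, fun _ _ x h => lev_mono _ _ h x,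
    fun a b => (XX_spec hs a b).1⟩

theorem rx_spec (hs : Std P) {p : Pt} (hp : -(1 / 100) ≤ p.1 ∧ p.1 ≤ 101 / 100) (b : ℤ) :
    val p (rx P p b) = mu P b (rx P p b) ∧ ∀ x, val p x = mu P b x → x = rx P p b :=
  crs_spec (m := 1 / 2) (M := 3) (by norm_num) fun x x' hx => by
    have h2 := mu_s hs b x x' hx
    have h3 := mul_le_mul_of_nonneg_right hp.1 (sub_nonneg.2 hx)
    have h4 := mul_le_mul_of_nonneg_right hp.2 (sub_nonneg.2 hx)
    constructor <;> linarith [h2.1, h2.2, val_sub p x x']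

theorem cx_spec (hs : Std P) {p : Pt} (hp : -(101 / 100) ≤ p.1 ∧ p.1 ≤ 1 / 100) (a : ℤ) :
    lam P a (cx P p a) = val p (cx P p a) ∧ ∀ x, lam P a x = val p x → x = cx P p a :=
  crs_spec (m := 1 / 2) (M := 3) (by norm_num) fun x x' hx => by
    have h2 := lam_s hs a x x' hx
    have h3 := mul_le_mul_of_nonneg_right hp.1 (sub_nonneg.2 hx)
    have h4 := mul_le_mul_of_nonneg_right hp.2 (sub_nonneg.2 hx)
    constructor <;> linarith [h2.1, h2.2, val_sub p x x']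

theorem rx_mono (hs : Std P) {p : Pt} (hp : -(1 / 100) ≤ p.1 ∧ p.1 ≤ 101 / 100) :
    Monotone (rx P p) := by
  intro b b' hb
  by_contra hc
  have hc' := (not_le.1 hc).le
  have h3 := mul_le_mul_of_nonneg_right hp.1 (sub_nonneg.2 hc')
  linarith [(mu_s hs b _ _ hc').1, (gd hs).mm b b' (rx P p b') hb, (rx_spec hs hp b).1,
    (rx_spec hs hp b').1, val_sub p (rx P p b') (rx P p b), not_le.1 hc]

theorem cx_anti (hs : Std P) {p : Pt} (hp : -(101 / 100) ≤ p.1 ∧ p.1 ≤ 1 / 100) :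
    Antitone (cx P p) := by
  intro a a' ha
  by_contra hc
  have hc' := (not_le.1 hc).le
  have h3 := mul_le_mul_of_nonneg_right hp.2 (sub_nonneg.2 hc')
  linarith [(lam_s hs a _ _ hc').1, (gd hs).lm a a' (cx P p a') ha, (cx_spec hs hp a).1,
    (cx_spec hs hp a').1, val_sub p (cx P p a) (cx P p a'), not_le.1 hc]

theorem lab_vis {l : Lb} (h : l.2 < (vis P l.1).card) : lab P l ∈ vis P l.1 := by
  have h' : l.2 < (vis P l.1).toList.length := by rwa [length_toList]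
  rw [lab, List.getD_eq_getElem _ _ h', ← mem_toList]
  exact List.getElem_mem h'

theorem vis_UU {w : Z2} {p : Pt} (h : p ∈ vis P w) : p ∈ UU P := by
  classical
  exact (mem_filter.1 h).1

theorem mem_vis {w : Z2} {p : Pt} : p ∈ vis P w ↔ p ∈ UU P ∧
    ((∃ q ∈ UU P, q ≠ p ∧ cellz P (xpt p q) = w) ∨ (p ∉ P 1 ∧ rowc P p w.2 = w) ∨
      (p ∉ P 0 ∧ colc P p w.1 = w)) := by
  classical
  exact mem_filter

theorem lab_UU {l : Lb} (h : l.2 < (vis P l.1).card) : lab P l ∈ UU P := vis_UU (lab_vis h)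

theorem lab_inj {w : Z2} {j j' : ℕ} (h : j < (vis P w).card) (h' : j' < (vis P w).card)
    (e : lab P (w, j) = lab P (w, j')) : j = j' := by
  rw [← length_toList] at h h'
  simp only [lab] at e
  rw [List.getD_eq_getElem _ _ h, List.getD_eq_getElem _ _ h'] at e
  exact (List.Nodup.getElem_inj_iff (nodup_toList _)).1 e

theorem ix_spec {w : Z2} {p : Pt} (h : p ∈ vis P w) :
    ix P w p < (vis P w).card ∧ lab P (w, ix P w p) = p := by
  classical
  have h' : ix P w p < (vis P w).toList.length := List.idxOf_lt_length_iff.2 (mem_toList.2 h)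
  refine ⟨by rwa [← length_toList], ?_⟩
  simp only [lab]
  rw [List.getD_eq_getElem _ _ h']
  exact List.getElem_idxOf h'

theorem mem_fm {p : Pt} (hp : p ∈ UU P) : p ∈ P (fm P p) := by
  unfold fm
  split_ifs with h0 h1
  · exact h0
  · exact h1
  · exact ((UU_cases hp).resolve_left h0).resolve_left h1

theorem fm_eq (h : TS k N P T) {p : Pt} {i : Fin 3} (hp : p ∈ P i) : fm P p = i := by
  by_contra hne
  exact disjoint_left.1 (h.disj _ _ hne) (mem_fm (mem_UU.2 ⟨i, hp⟩)) hp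

theorem not_mem1 (h : TS k N P T) {p : Pt} (h1 : fm P p ≠ 1) : p ∉ P 1 := fun hp =>
  h1 (fm_eq h hp)

theorem not_mem0 (h : TS k N P T) {p : Pt} (h1 : fm P p = 1) : p ∉ P 0 := fun hp => by
  rw [fm_eq h hp] at h1
  exact absurd h1 (by decide)

theorem xpt_on {p q : Pt} (h : p.1 ≠ q.1) : On p (xpt p q) ∧ On q (xpt p q) := by
  refine ⟨rfl, ?_⟩
  have := sub_ne_zero.2 h
  simp only [On, xpt, val]
  field_simp
  ring

theorem xpt_eq {p q z : Pt} (h : p ≠ q) (hp : On p z) (hq : On q z) : xpt p q = z := by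
  have h1 : p.1 ≠ q.1 := fun e => h (on_fst_inj hp hq e)
  exact line_unique h (xpt_on h1).1 (xpt_on h1).2 hp hq

theorem fst_ne (h : TS k N P T) {p q : Pt} (hp : p ∈ UU P) (hq : q ∈ UU P) (hne : p ≠ q) :
    p.1 ≠ q.1 := fun e => hne (h.inj _ _ p (mem_fm hp) q (mem_fm hq) e)

theorem on_eq {p z : Pt} (h : On p z) : (z.1, val p z.1) = z := Prod.ext rfl h

theorem vx_cellz (hs : Std P) {p q z : Pt} (hp : p ∈ P 0) (hq : q ∈ P 1) (h0 : On p z)
    (h1 : On q z) : vx (lam P) (XX P) (cellz P z) = z ∧ cellz P z ∈ rect P := by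
  obtain ⟨a1, a2⟩ := lev_bel 1 hp h0
  obtain ⟨b1, b2⟩ := lev_bel (-1) hq h1
  have e : z.1 = XX P (bel (P 0) z) (bel (P 1) z) := (XX_spec hs _ _).2 _ (a2.trans b2.symm)
  refine ⟨?_, mem_product.2 ⟨mem_Ico.2 ⟨bel_nonneg _ _, a1⟩, mem_Ico.2 ⟨bel_nonneg _ _, b1⟩⟩⟩
  simp only [vx, cellz]
  rw [← e]
  exact Prod.ext rfl a2

theorem rowc_on (hs : Std P) {p q z : Pt} (hp : -(1 / 100) ≤ p.1 ∧ p.1 ≤ 101 / 100) (hq : q ∈ P 1)
    (h0 : On p z) (h1 : On q z) : rowc P p (cellz P z).2 = cellz P z := by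
  have e : z.1 = rx P p (bel (P 1) z) :=
    (rx_spec hs hp _).2 _ (Eq.trans h0 (lev_bel (-1) hq h1).2.symm)
  simp only [rowc, cellz]
  rw [← e, on_eq h0]

theorem colc_on (hs : Std P) {p q z : Pt} (hp : -(101 / 100) ≤ p.1 ∧ p.1 ≤ 1 / 100) (hq : q ∈ P 0)
    (h0 : On p z) (h1 : On q z) : colc P p (cellz P z).1 = cellz P z := by
  have e : z.1 = cx P p (bel (P 0) z) :=
    (cx_spec hs hp _).2 _ ((lev_bel 1 hq h1).2.trans (Eq.symm h0))
  simp only [colc, cellz]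
  rw [← e, on_eq h0]

theorem lev_between {Q : Finset Pt} (c : ℝ) {z : Pt} {a : ℤ} (e : bel Q z = a) (h1 : 1 ≤ a)
    (h2 : a < Q.card) : lev Q c (a - 1) z.1 ≤ z.2 ∧ z.2 ≤ lev Q c a z.1 :=
  ⟨((lev_iff c (by omega) (by omega) z).1 (by omega)).le,
    not_lt.1 fun k => by have := (lev_iff c (by omega) h2 z).2 k; omega⟩

theorem bel_between {Q : Finset Pt} (c : ℝ) {z : Pt} {a a' : ℤ} (h0 : 0 ≤ a) (h : a ≤ a')
    (h1 : a' < Q.card) (e1 : lev Q c a z.1 < z.2) (e2 : z.2 < lev Q c a' z.1) :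
    a ≤ bel Q z ∧ bel Q z ≤ a' :=
  ⟨((lev_iff c h0 (h.trans_lt h1) z).2 e1).le,
    not_lt.1 fun k => lt_asymm e2 ((lev_iff c (h0.trans h) h1 z).1 k)⟩

theorem tri_spec {w : Z2} (h : ∃ τ ∈ T, cell P τ = w) :
    tri P T w ∈ T ∧ cell P (tri P T w) = w := Classical.epsilon_spec h

theorem tr_ne (h : TS k N P T) {τ : Fin 3 → Pt} (hτ : τ ∈ T) {i j : Fin 3} (hij : i ≠ j) :
    τ i ≠ τ j := fun e => disjoint_left.1 (h.disj i j hij) (h.mem τ hτ i) (e ▸ h.mem τ hτ j)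

theorem tr_on (h : TS k N P T) {τ : Fin 3 → Pt} (hτ : τ ∈ T) (i : Fin 3) :
    On (τ i) (xpt (τ 0) (τ 1)) := by
  obtain ⟨z, hz⟩ := h.col τ hτ
  rw [xpt_eq (tr_ne h hτ (by decide)) (hz 0) (hz 1)]
  exact hz i

theorem tr_vx (h : TS k N P T) (hs : Std P) {τ : Fin 3 → Pt} (hτ : τ ∈ T) :
    vx (lam P) (XX P) (cell P τ) = xpt (τ 0) (τ 1) ∧ cell P τ ∈ rect P :=
  vx_cellz hs (h.mem τ hτ 0) (h.mem τ hτ 1) (tr_on h hτ 0) (tr_on h hτ 1)

theorem tr_x (h : TS k N P T) {τ : Fin 3 → Pt} (hτ : τ ∈ T) {i j : Fin 3} (hij : i ≠ j) :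
    cellz P (xpt (τ i) (τ j)) = cell P τ := by
  rw [xpt_eq (tr_ne h hτ hij) (tr_on h hτ i) (tr_on h hτ j), cell]

theorem tr_vis (h : TS k N P T) {τ : Fin 3 → Pt} (hτ : τ ∈ T) (i : Fin 3) :
    τ i ∈ vis P (cell P τ) := by
  obtain ⟨j, hj⟩ := exists_ne i
  exact mem_vis.2 ⟨mem_UU.2 ⟨i, h.mem τ hτ i⟩,
    Or.inl ⟨τ j, mem_UU.2 ⟨j, h.mem τ hτ j⟩, tr_ne h hτ hj, tr_x h hτ hj.symm⟩⟩

theorem tr_inj (h : TS k N P T) (hs : Std P) {τ τ' : Fin 3 → Pt} (hτ : τ ∈ T) (hτ' : τ' ∈ T)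
    (e : cell P τ = cell P τ') : τ = τ' := by
  refine h.one τ hτ τ' hτ' _ (tr_on h hτ) fun i => ?_
  rw [← (tr_vx h hs hτ).1, e, (tr_vx h hs hτ').1]
  exact tr_on h hτ' i

theorem tr_row (h : TS k N P T) (hs : Std P) {τ : Fin 3 → Pt} (hτ : τ ∈ T) {i : Fin 3}
    (hi : i ≠ 1) : rowc P (τ i) (cell P τ).2 = cell P τ :=
  rowc_on hs (slr hs (mem_UU.2 ⟨i, h.mem τ hτ i⟩) (disjoint_left.1 (h.disj i 1 hi) (h.mem τ hτ i)))
    (h.mem τ hτ 1) (tr_on h hτ i) (tr_on h hτ 1)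

theorem tr_col (h : TS k N P T) (hs : Std P) {τ : Fin 3 → Pt} (hτ : τ ∈ T) {i : Fin 3}
    (hi : i ≠ 0) : colc P (τ i) (cell P τ).1 = cell P τ :=
  colc_on hs (slc hs (mem_UU.2 ⟨i, h.mem τ hτ i⟩) (disjoint_left.1 (h.disj i 0 hi) (h.mem τ hτ i)))
    (h.mem τ hτ 0) (tr_on h hτ i) (tr_on h hτ 0)

theorem idx_canc (p : Pt) (i : Fin 3) (m : ℤ) : idx i (canc P p i m) = m := by
  unfold idx canc
  split_ifs <;> rfl

theorem canc_vis (h : TS k N P T) {p : Pt} (hp : p ∈ UU P) (m : ℤ) :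
    p ∈ vis P (canc P p (fm P p) m) := by
  refine mem_vis.2 ⟨hp, Or.inr ?_⟩
  unfold canc
  split_ifs with h1
  · exact Or.inr ⟨not_mem0 h h1, rfl⟩
  · exact Or.inl ⟨not_mem1 h h1, rfl⟩

theorem can_iff {i : Fin 3} {l : Lb} : (GG P T).Can i l ↔ l.2 < (vis P l.1).card ∧
    fm P (lab P l) = i ∧ canc P (lab P l) i (idx i l.1) = l.1 := by
  simp only [Gal.Can, Gal.valid, GG, decide_eq_true_eq]
  constructor <;> rintro ⟨h1, rfl, h2⟩ <;> exact ⟨h1, rfl, h2⟩

theorem same_iff {l l' : Lb} : (GG P T).same l l' = true ↔ lab P l = lab P l' := by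
  simp only [GG, decide_eq_true_eq]

theorem cr_iff {w : Z2} {j j' : ℕ} : (GG P T).cr w j j' = true ↔
    j < (vis P w).card ∧ j' < (vis P w).card ∧ lab P (w, j) ≠ lab P (w, j') ∧
      cellz P (xpt (lab P (w, j)) (lab P (w, j'))) = w := by
  simp only [GG, decide_eq_true_eq]

theorem tp_iff {w : Z2} : (GG P T).tp w = true ↔ ∃ τ ∈ T, cell P τ = w := by
  simp only [GG, decide_eq_true_eq]

theorem tlab_spec (h : TS k N P T) {w : Z2} (hw : (GG P T).tp w = true) (i : Fin 3) :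
    ix P w (tri P T w i) < (vis P w).card ∧ lab P (w, ix P w (tri P T w i)) = tri P T w i := by
  obtain ⟨h1, h2⟩ := tri_spec (tp_iff.1 hw)
  have := tr_vis h h1 i
  rw [h2] at this
  exact ix_spec this

end ECub.D
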