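import Pool.Agent.P.MP_029dcd_co.F.Defs

/-! Abstract grids of curves with slopes close to `1` and `-1`. -/

set_option autoImplicit false

namespace ECub.D

open CubicStab Finset

/-- Two monotone families of curves with slopes close to `1` and `-1`, and their crossings. -/
structure GD (lam mu : ℤ → ℝ → ℝ) (X : ℤ → ℤ → ℝ) : Prop where
  ls : ∀ a x x', x ≤ x' → 99 / 100 * (x' - x) ≤ lam a x' - lam a x ∧
    lam a x' - lam a x ≤ 101 / 100 * (x' - x)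
  ms : ∀ b x x', x ≤ x' → 99 / 100 * (x' - x) ≤ mu b x - mu b x' ∧
    mu b x - mu b x' ≤ 101 / 100 * (x' - x)
  lm : ∀ a a' x, a ≤ a' → lam a x ≤ lam a' x
  mm : ∀ b b' x, b ≤ b' → mu b x ≤ mu b' x
  cr : ∀ a b, lam a (X a b) = mu b (X a b)

/-- the vertex map -/
def vx (lam : ℤ → ℝ → ℝ) (X : ℤ → ℤ → ℝ) (w : Z2) : Pt := (X w.1 w.2, lam w.1 (X w.1 w.2))

theorem nrm_le {p : Pt} {c : ℝ} (h1 : -c ≤ p.1) (h2 : p.1 ≤ c) (h3 : -c ≤ p.2) (h4 : p.2 ≤ c) :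
    ‖p‖ ≤ c := by
  rw [Prod.norm_def, Real.norm_eq_abs, Real.norm_eq_abs]
  exact max_le (abs_le.2 ⟨h1, h2⟩) (abs_le.2 ⟨h3, h4⟩)

theorem le_nrm (p : Pt) : -‖p‖ ≤ p.1 ∧ p.1 ≤ ‖p‖ ∧ -‖p‖ ≤ p.2 ∧ p.2 ≤ ‖p‖ := by
  have h1 := abs_le.1 (show |p.1| ≤ ‖p‖ from norm_fst_le p)
  have h2 := abs_le.1 (show |p.2| ≤ ‖p‖ from norm_snd_le p)
  exact ⟨h1.1, h1.2, h2.1, h2.2⟩

namespace GD

variable {lam mu : ℤ → ℝ → ℝ} {X : ℤ → ℤ → ℝ} (h : GD lam mu X)
include h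

theorem refl : GD (fun b x => mu b (-x)) (fun a x => lam a (-x)) (fun b a => -X a b) where
  ls b x x' hx := by
    have := h.ms b (-x') (-x) (by linarith)
    constructor <;> linarith [this.1, this.2]
  ms a x x' hx := by
    have := h.ls a (-x') (-x) (by linarith)
    constructor <;> linarith [this.1, this.2]
  lm b b' x hb := h.mm b b' _ hb
  mm a a' x ha := h.lm a a' _ ha
  cr b a := by simp only [neg_neg]; exact (h.cr a b).symm

theorem anti {a a' : ℤ} (ha : a ≤ a') (b : ℤ) : X a' b ≤ X a b := by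
  by_contra hc
  have hc' := (not_le.1 hc).le
  have h1 := (h.ls a _ _ hc').1
  have h2 := (h.ms b _ _ hc').1
  have h3 := h.lm a a' (X a' b) ha
  linarith [h.cr a b, h.cr a' b, not_le.1 hc]

theorem mono (a : ℤ) {b b' : ℤ} (hb : b ≤ b') : X a b ≤ X a b' := by
  have := h.refl.anti hb a
  linarith

theorem row {a a' : ℤ} (ha : a ≤ a') (b : ℤ) :
    99 / 100 * (X a b - X a' b) ≤ lam a' (X a' b) - lam a (X a b) ∧
      lam a' (X a' b) - lam a (X a b) ≤ 101 / 100 * (X a b - X a' b) := by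
  rw [h.cr, h.cr]
  exact h.ms b _ _ (h.anti ha b)

theorem col (a : ℤ) {b b' : ℤ} (hb : b ≤ b') :
    99 / 100 * (X a b' - X a b) ≤ lam a (X a b') - lam a (X a b) ∧
      lam a (X a b') - lam a (X a b) ≤ 101 / 100 * (X a b' - X a b) :=
  h.ls a _ _ (h.mono a hb)

theorem near {a b : ℤ} {z : Pt} (h1 : lam (a - 1) z.1 ≤ z.2) (h2 : z.2 ≤ lam a z.1)
    (h3 : mu (b - 1) z.1 ≤ z.2) (h4 : z.2 ≤ mu b z.1) :
    lam (a - 1) (X (a - 1) (b - 1)) ≤ z.2 ∧ z.2 + 99 / 100 * |z.1 - X a b| ≤ lam a (X a b) := by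
  constructor
  · rcases le_total (X (a - 1) (b - 1)) z.1 with k | k
    · linarith [(h.ls (a - 1) _ _ k).1]
    · linarith [(h.ms (b - 1) _ _ k).1, h.cr (a - 1) (b - 1)]
  · rcases le_total (X a b) z.1 with k | k
    · rw [abs_of_nonneg (by linarith)]
      linarith [(h.ms b _ _ k).1, h.cr a b]
    · rw [abs_of_nonpos (by linarith)]
      linarith [(h.ls a _ _ k).1]

theorem f_lu {a a' : ℤ} (ha : a ≤ a') (b : ℤ) {z : Pt} (hz : lam a' z.1 ≤ z.2) :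
    99 / 100 * (X a b - X a' b) ≤ ‖z - vx lam X (a, b)‖ := by
  obtain ⟨k1, k2, k3, k4⟩ := le_nrm (z - vx lam X (a, b))
  simp only [vx, Prod.fst_sub, Prod.snd_sub] at k1 k2 k3 k4 ⊢
  have r := (h.row ha b).1
  have := h.anti ha b
  rcases le_total (X a' b) z.1 with k | k
  · linarith [(h.ls a' _ _ k).1]
  · linarith

theorem f_ld {a a' : ℤ} (ha : a' ≤ a) (b : ℤ) {z : Pt} (hz : z.2 ≤ lam a' z.1) :
    99 / 100 * (X a' b - X a b) ≤ ‖z - vx lam X (a, b)‖ := by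
  obtain ⟨k1, k2, k3, k4⟩ := le_nrm (z - vx lam X (a, b))
  simp only [vx, Prod.fst_sub, Prod.snd_sub] at k1 k2 k3 k4 ⊢
  have r := (h.row ha b).1
  have := h.anti ha b
  rcases le_total z.1 (X a' b) with k | k
  · linarith [(h.ls a' _ _ k).1]
  · linarith

theorem f_mu (a : ℤ) {b b' : ℤ} (hb : b ≤ b') {z : Pt} (hz : mu b' z.1 ≤ z.2) :
    99 / 100 * (X a b' - X a b) ≤ ‖z - vx lam X (a, b)‖ := by
  obtain ⟨k1, k2, k3, k4⟩ := le_nrm (z - vx lam X (a, b))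
  simp only [vx, Prod.fst_sub, Prod.snd_sub] at k1 k2 k3 k4 ⊢
  have r := (h.col a hb).1
  have := h.mono a hb
  rcases le_total z.1 (X a b') with k | k
  · linarith [(h.ms b' _ _ k).1, h.cr a b']
  · linarith

theorem f_md (a : ℤ) {b b' : ℤ} (hb : b' ≤ b) {z : Pt} (hz : z.2 ≤ mu b' z.1) :
    99 / 100 * (X a b - X a b') ≤ ‖z - vx lam X (a, b)‖ := by
  obtain ⟨k1, k2, k3, k4⟩ := le_nrm (z - vx lam X (a, b))
  simp only [vx, Prod.fst_sub, Prod.snd_sub] at k1 k2 k3 k4 ⊢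
  have r := (h.col a hb).1
  have := h.mono a hb
  rcases le_total (X a b') z.1 with k | k
  · linarith [(h.ms b' _ _ k).1, h.cr a b']
  · linarith

theorem n_row {a a' : ℤ} (ha : a ≤ a') (b : ℤ) :
    ‖vx lam X (a', b) - vx lam X (a, b)‖ ≤ 101 / 100 * (X a b - X a' b) := by
  have r := h.row ha b
  have := h.anti ha b
  refine nrm_le ?_ ?_ ?_ ?_ <;> simp only [vx, Prod.fst_sub, Prod.snd_sub] <;> linarith [r.1, r.2]

theorem n_col (a : ℤ) {b b' : ℤ} (hb : b ≤ b') :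
    ‖vx lam X (a, b') - vx lam X (a, b)‖ ≤ 101 / 100 * (X a b' - X a b) := by
  have r := h.col a hb
  have := h.mono a hb
  refine nrm_le ?_ ?_ ?_ ?_ <;> simp only [vx, Prod.fst_sub, Prod.snd_sub] <;> linarith [r.1, r.2]

/-- a point close to a vertex lies between the curves `u` steps away -/
theorem loc {w : Z2} {u : ℕ} {z : Pt}
    (h1 : 2 * ‖z - vx lam X w‖ < ‖vx lam X (w + ((u : ℤ), 0)) - vx lam X w‖)
    (h2 : 2 * ‖z - vx lam X w‖ < ‖vx lam X (w - ((u : ℤ), 0)) - vx lam X w‖)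
    (h3 : 2 * ‖z - vx lam X w‖ < ‖vx lam X (w + (0, (u : ℤ))) - vx lam X w‖)
    (h4 : 2 * ‖z - vx lam X w‖ < ‖vx lam X (w - (0, (u : ℤ))) - vx lam X w‖) :
    lam (w.1 - u) z.1 < z.2 ∧ z.2 < lam (w.1 + u) z.1 ∧ mu (w.2 - u) z.1 < z.2 ∧
      z.2 < mu (w.2 + u) z.1 := by
  obtain ⟨a, b⟩ := w
  have hu : (0 : ℤ) ≤ u := Int.natCast_nonneg u
  have n0 := norm_nonneg (z - vx lam X (a, b))
  simp only [Prod.mk_add_mk, Prod.mk_sub_mk, add_zero, sub_zero] at h1 h2 h3 h4 ⊢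
  refine ⟨not_le.1 fun k => ?_, not_le.1 fun k => ?_, not_le.1 fun k => ?_, not_le.1 fun k => ?_⟩
  · have e1 := h.f_ld (a := a) (by linarith) b k
    have e2 := h.n_row (a := a - u) (a' := a) (by linarith) b
    rw [norm_sub_rev] at e2
    linarith
  · linarith [h.f_lu (a := a) (by linarith) b k, h.n_row (a := a) (a' := a + u) (by linarith) b]
  · have e1 := h.f_md a (b := b) (by linarith) k
    have e2 := h.n_col a (b := b - u) (b' := b) (by linarith)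
    rw [norm_sub_rev] at e2
    linarith
  · linarith [h.f_mu a (b := b) (by linarith) k, h.n_col a (b := b) (b' := b + u) (by linarith)]

theorem stab {a a' b b' : ℤ} (ha : a ≤ a') (hb : b ≤ b')
    (hH : X a b - X a' b ≤ 2 * (X a b' - X a b)) :
    X a' b' - X a' b ≤ 2 * (X a b' - X a b) ∧ X a b' - X a b ≤ 2 * (X a' b' - X a' b) := by
  have r1 := h.row ha b
  have r2 := h.row ha b'
  have c1 := h.col a hb
  have c2 := h.col a' hb
  have := h.mono a hb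
  constructor <;> linarith [r1.1, r1.2, r2.1, r2.2, c1.1, c1.2, c2.1, c2.2]

theorem strip_geo {A A' B B' : ℤ} (ha : A ≤ A') (hb : B ≤ B') {f : ℝ → ℝ}
    (hf : ∀ x x', x ≤ x' → f x - f x' ≤ 1 / 100 * (x' - x)) {x1 x2 : ℝ} (e1 : f x1 = mu B x1)
    (e2 : f x2 = mu B' x2) (u1 : lam A' x1 ≤ f x1) (u2 : f x2 ≤ lam A x2) :
    X A B - X A' B ≤ 2 * (X A B' - X A B) := by
  have k1 : x1 ≤ X A' B := by
    by_contra hc
    have hc' := (not_le.1 hc).le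
    linarith [(h.ls A' _ _ hc').1, (h.ms B _ _ hc').1, h.cr A' B, not_le.1 hc]
  have k2 : X A B' ≤ x2 := by
    by_contra hc
    have hc' := (not_le.1 hc).le
    linarith [(h.ls A _ _ hc').1, (h.ms B' _ _ hc').1, h.cr A B', not_le.1 hc]
  have a1 := h.anti ha B
  have a2 := h.mono A hb
  have a3 := hf x1 x2 (by linarith)
  linarith [(h.ms B _ _ k1).1, (h.ms B' _ _ k2).1, (h.row ha B).1, (h.col A hb).2, h.cr A' B,
    h.cr A B']

theorem iter {lo hi B M s : ℤ} (hM : 0 ≤ M) (hs : 0 ≤ s)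
    (H : ∀ A, lo ≤ A → A ≤ hi → X A B - X (A + s) B ≤ 2 * (X A (B + M) - X A B)) (i : ℕ) :
    ∀ A A', lo ≤ A → A ≤ A' → A' ≤ hi → A' ≤ A + s * i →
      X A' (B + M) - X A' B ≤ 4 ^ i * (X A (B + M) - X A B) ∧
      X A (B + M) - X A B ≤ 4 ^ i * (X A' (B + M) - X A' B) ∧
      X A B - X A' B ≤ 4 ^ i * (X A (B + M) - X A B) := by
  have hB : B ≤ B + M := by linarith
  induction i with
  | zero =>
    intro A A' _ h2 _ h4
    obtain rfl : A = A' := le_antisymm h2 (by simpa using h4)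
    have := h.mono A hB
    refine ⟨by simp, by simp, ?_⟩
    simp only [pow_zero]
    linarith
  | succ i ih =>
    intro A A' h1 h2 h3 h4
    have p : (1 : ℝ) ≤ 4 ^ i := one_le_pow₀ (by norm_num)
    have g0 := sub_nonneg.2 (h.mono A hB)
    have g1 := sub_nonneg.2 (h.mono A' hB)
    have hA := H A h1 (h2.trans h3)
    rw [pow_succ]
    rcases le_total A' (A + s) with k | k
    · have e : X A B - X A' B ≤ 2 * (X A (B + M) - X A B) := by linarith [h.anti k B]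
      obtain ⟨s1, s2⟩ := h.stab h2 hB e
      refine ⟨?_, ?_, ?_⟩ <;> nlinarith
    · obtain ⟨s1, s2⟩ := h.stab (a := A) (a' := A + s) (by linarith) hB hA
      obtain ⟨t1, t2, t3⟩ := ih (A + s) A' (by linarith) k h3 (by push_cast at h4; linarith)
      have q := mul_le_mul_of_nonneg_left s1 (zero_le_one.trans p)
      refine ⟨?_, ?_, ?_⟩ <;> nlinarith

theorem tot {lo hi B M s : ℤ} (hM : 0 ≤ M) (hs : 0 ≤ s)
    (H : ∀ A, lo ≤ A → A ≤ hi → X A B - X (A + s) B ≤ 2 * (X A (B + M) - X A B)) {J : ℕ}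
    (hJ : hi ≤ lo + s * J) {A : ℤ} (h1 : lo ≤ A) (h2 : A ≤ hi) :
    X lo B - X hi B ≤ 16 ^ J * (X A (B + M) - X A B) := by
  have a := (h.iter hM hs H J lo hi le_rfl (h1.trans h2) le_rfl hJ).2.2
  have b := (h.iter hM hs H J lo A le_rfl h1 h2 (h2.trans hJ)).2.1
  have p : (0 : ℝ) ≤ 4 ^ J := by positivity
  have e : (16 : ℝ) ^ J = 4 ^ J * 4 ^ J := by rw [← mul_pow]; norm_num
  rw [e, mul_assoc]
  exact a.trans (mul_le_mul_of_nonneg_left b p)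

theorem qs {lo hi lo' hi' M : ℤ} (hM : 0 ≤ M) {c : ℝ} (hc : 1 ≤ c)
    (hH : ∀ A B, lo ≤ A → A ≤ hi → lo' ≤ B → B ≤ hi' →
      X lo B - X (hi + M) B ≤ c * (X A (B + M) - X A B))
    (hG : ∀ A B, lo ≤ A → A ≤ hi → lo' ≤ B → B ≤ hi' →
      X A (hi' + M) - X A lo' ≤ c * (X A B - X (A + M) B))
    {w1 w2 w3 w4 : Z2} (k1 : lo ≤ w1.1 ∧ w1.1 ≤ hi ∧ lo' ≤ w1.2 ∧ w1.2 ≤ hi')
    (k2 : lo ≤ w2.1 ∧ w2.1 ≤ hi ∧ lo' ≤ w2.2 ∧ w2.2 ≤ hi')
    (k3 : lo ≤ w3.1 ∧ w3.1 ≤ hi ∧ lo' ≤ w3.2 ∧ w3.2 ≤ hi')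
    (k4 : lo ≤ w4.1 ∧ w4.1 ≤ hi ∧ lo' ≤ w4.2 ∧ w4.2 ≤ hi')
    (hw : M ≤ max |w1.1 - w2.1| |w1.2 - w2.2|) :
    ‖vx lam X w3 - vx lam X w4‖ ≤ 5 * c ^ 3 * ‖vx lam X w1 - vx lam X w2‖ := by
  have c0 : 0 ≤ c := zero_le_one.trans hc
  have hHG : ∀ A B, lo ≤ A → A ≤ hi → lo' ≤ B → B ≤ hi' →
      X lo B - X (hi + M) B ≤ c * (X A (hi' + M) - X A lo') := fun A B a1 a2 b1 b2 =>
    (hH A B a1 a2 b1 b2).trans (mul_le_mul_of_nonneg_left
      (by linarith [h.mono A b1, h.mono A (b := B + M) (b' := hi' + M) (by linarith)]) c0)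
  have hGH : ∀ A B, lo ≤ A → A ≤ hi → lo' ≤ B → B ≤ hi' →
      X A (hi' + M) - X A lo' ≤ c * (X lo B - X (hi + M) B) := fun A B a1 a2 b1 b2 =>
    (hG A B a1 a2 b1 b2).trans (mul_le_mul_of_nonneg_left
      (by linarith [h.anti a1 B, h.anti (a := A + M) (a' := hi + M) (by linarith) B]) c0)
  obtain ⟨a3, b3⟩ := w3
  obtain ⟨a4, b4⟩ := w4
  simp only at k3 k4
  have up : ‖vx lam X (a3, b3) - vx lam X (a4, b4)‖ ≤
      101 / 100 * ((X lo b3 - X (hi + M) b3) + (X a4 (hi' + M) - X a4 lo')) := by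
    have t := norm_sub_le_norm_sub_add_norm_sub (vx lam X (a3, b3)) (vx lam X (a4, b3))
      (vx lam X (a4, b4))
    have r : ‖vx lam X (a3, b3) - vx lam X (a4, b3)‖ ≤ 101 / 100 * (X lo b3 - X (hi + M) b3) := by
      rcases le_total a3 a4 with k | k
      · rw [norm_sub_rev]
        linarith [h.n_row k b3, h.anti k3.1 b3, h.anti (a := a4) (a' := hi + M) (by linarith) b3]
      · linarith [h.n_row k b3, h.anti k4.1 b3, h.anti (a := a3) (a' := hi + M) (by linarith) b3]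
    have r' : ‖vx lam X (a4, b3) - vx lam X (a4, b4)‖ ≤
        101 / 100 * (X a4 (hi' + M) - X a4 lo') := by
      rcases le_total b3 b4 with k | k
      · rw [norm_sub_rev]
        linarith [h.n_col a4 k, h.mono a4 k3.2.2.1,
          h.mono a4 (b := b4) (b' := hi' + M) (by linarith)]
      · linarith [h.n_col a4 k, h.mono a4 k4.2.2.1,
          h.mono a4 (b := b3) (b' := hi' + M) (by linarith)]
    linarith
  have fin : ∀ d p q t : ℝ, 0 ≤ d → 99 / 100 * t ≤ c * d → p ≤ c * t → q ≤ c * p →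
      101 / 100 * (p + q) ≤ 5 * c ^ 3 * d := by
    intro d p q t hd e1 e2 e3
    have t1 : t ≤ 2 * c * d := by nlinarith [mul_nonneg c0 hd]
    have t2 : p ≤ 2 * c ^ 2 * d := by nlinarith [mul_le_mul_of_nonneg_left t1 c0]
    have t3 : q ≤ 2 * c ^ 3 * d := by nlinarith [mul_le_mul_of_nonneg_left t2 c0]
    have t4 : c ^ 2 * d ≤ c ^ 3 * d :=
      mul_le_mul_of_nonneg_right (pow_le_pow_right₀ hc (by norm_num)) hd
    have t5 : 0 ≤ c ^ 3 * d := by positivity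
    nlinarith
  have A1 : ∀ w w' : Z2, (lo ≤ w.1 ∧ w.1 ≤ hi ∧ lo' ≤ w.2 ∧ w.2 ≤ hi') → w.1 + M ≤ w'.1 →
      ‖vx lam X (a3, b3) - vx lam X (a4, b4)‖ ≤ 5 * c ^ 3 * ‖vx lam X w' - vx lam X w‖ := by
    rintro ⟨a, b⟩ w' k e
    simp only at k e
    have f := h.f_lu (a := a) (a' := w'.1) (by linarith) b (z := vx lam X w') le_rfl
    have g := hG a b k.1 k.2.1 k.2.2.1 k.2.2.2
    have g' := mul_le_mul_of_nonneg_left (show 99 / 100 * (X a b - X (a + M) b) ≤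
      ‖vx lam X w' - vx lam X (a, b)‖ by linarith [h.anti e b]) c0
    exact up.trans (fin _ _ _ (X a (hi' + M) - X a lo') (norm_nonneg _) (by linarith)
      (hHG a b3 k.1 k.2.1 k3.2.2.1 k3.2.2.2) (hGH a4 b3 k4.1 k4.2.1 k3.2.2.1 k3.2.2.2))
  have A2 : ∀ w w' : Z2, (lo ≤ w.1 ∧ w.1 ≤ hi ∧ lo' ≤ w.2 ∧ w.2 ≤ hi') → w.2 + M ≤ w'.2 →
      ‖vx lam X (a3, b3) - vx lam X (a4, b4)‖ ≤ 5 * c ^ 3 * ‖vx lam X w' - vx lam X w‖ := by
    rintro ⟨a, b⟩ w' k e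
    simp only at k e
    have f := h.f_mu a (b := b) (b' := w'.2) (by linarith) (z := vx lam X w')
      (h.cr w'.1 w'.2).symm.le
    have g := hH a b k.1 k.2.1 k.2.2.1 k.2.2.2
    have g' := mul_le_mul_of_nonneg_left (show 99 / 100 * (X a (b + M) - X a b) ≤
      ‖vx lam X w' - vx lam X (a, b)‖ by linarith [h.mono a e]) c0
    rw [add_comm] at up
    exact up.trans (fin _ _ _ (X lo b - X (hi + M) b) (norm_nonneg _) (by linarith)
      (hGH a4 b k4.1 k4.2.1 k.2.2.1 k.2.2.2) (hHG a4 b3 k4.1 k4.2.1 k3.2.2.1 k3.2.2.2))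
  rcases le_max_iff.1 hw with e | e <;> rcases le_abs'.1 e with e | e
  · rw [norm_sub_rev (vx lam X w1)]
    exact A1 w1 w2 k1 (by linarith)
  · exact A1 w2 w1 k2 (by linarith)
  · rw [norm_sub_rev (vx lam X w1)]
    exact A2 w1 w2 k1 (by linarith)
  · exact A2 w2 w1 k2 (by linarith)

theorem const {lo hi w : Z2} (e : vx lam X hi = vx lam X lo) (h1 : lo.1 ≤ w.1) (h2 : w.1 ≤ hi.1)
    (h3 : lo.2 ≤ w.2) (h4 : w.2 ≤ hi.2) : vx lam X w = vx lam X lo := by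
  have e2 : lam hi.1 (X hi.1 hi.2) = lam lo.1 (X lo.1 lo.2) := congrArg Prod.snd e
  have r1 := h.row h1 lo.2
  have c1 := h.col w.1 h3
  have r2 := h.row h2 w.2
  have c2 := h.col hi.1 h4
  have m1 := h.anti h1 lo.2
  have m2 := h.mono w.1 h3
  have m3 := h.anti h2 w.2
  have m4 := h.mono hi.1 h4
  refine Prod.ext ?_ ?_ <;> simp only [vx] <;>
    linarith [r1.1, r1.2, c1.1, c1.2, r2.1, r2.2, c2.1, c2.2]

end GD

end ECub.D
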