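import Pool.Agent.P.MP_029dcd_co.F.D.Grid

/-! Levels of an arrangement of lines. -/

set_option autoImplicit false

namespace ECub.D

open CubicStab Finset

/-- the value of the line `p` at the abscissa `x` -/
def val (p : Pt) (x : ℝ) : ℝ := p.1 * x + p.2

open Classical in
/-- the number of lines strictly below `z` -/
noncomputable def bel (Q : Finset Pt) (z : Pt) : ℤ :=
  ((Q.filter fun p => val p z.1 < z.2).card : ℤ)

open Classical in
/-- the level curve with index `a`, clamped to the valid range -/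
noncomputable def lev (Q : Finset Pt) (c : ℝ) (a : ℤ) (x : ℝ) : ℝ :=
  if Q.Nonempty then sInf {y | min (max a 0) ((Q.card : ℤ) - 1) < bel Q (x, y)} else c * x

/-- the abscissa of a crossing of two graphs -/
noncomputable def crs (f g : ℝ → ℝ) : ℝ := Classical.epsilon fun x => f x = g x

theorem val_sub (p : Pt) (x x' : ℝ) : val p x' - val p x = p.1 * (x' - x) := by
  unfold val; ring

theorem bel_nonneg (Q : Finset Pt) (z : Pt) : 0 ≤ bel Q z := Int.natCast_nonneg _

theorem bel_le (Q : Finset Pt) (z : Pt) : bel Q z ≤ Q.card := by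
  unfold bel
  exact_mod_cast card_filter_le _ _

theorem bel_le_bel {Q : Finset Pt} {z z' : Pt}
    (h : ∀ p ∈ Q, val p z.1 < z.2 → val p z'.1 < z'.2) : bel Q z ≤ bel Q z' := by
  unfold bel
  exact_mod_cast card_le_card fun p hp =>
    mem_filter.2 ⟨(mem_filter.1 hp).1, h p (mem_filter.1 hp).1 (mem_filter.1 hp).2⟩

theorem bel_lt_bel {Q : Finset Pt} {p : Pt} (hp : p ∈ Q) {x y : ℝ} (h : val p x < y) :
    bel Q (x, val p x) < bel Q (x, y) := by
  unfold bel
  refine Int.ofNat_lt.2 (card_lt_card ⟨fun q hq => ?_, fun hs => ?_⟩)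
  · exact mem_filter.2 ⟨(mem_filter.1 hq).1, (mem_filter.1 hq).2.trans h⟩
  · exact lt_irrefl _ (mem_filter.1 (hs (mem_filter.2 ⟨hp, h⟩))).2

theorem inf_iff {Q : Finset Pt} {k : ℤ} (h0 : 0 ≤ k) (h1 : k < Q.card) (x y : ℝ) :
    k < bel Q (x, y) ↔ sInf {y | k < bel Q (x, y)} < y := by
  classical
  have hQ : Q.Nonempty := card_pos.1 (by omega)
  obtain ⟨lo, -, hlo⟩ := exists_min_image Q (fun p => val p x) hQ
  obtain ⟨hi, hh, hhi⟩ := exists_max_image Q (fun p => val p x) hQ
  have bdd : BddBelow {y | k < bel Q (x, y)} := by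
    refine ⟨val lo x, fun y hy => ?_⟩
    have : ((Q.filter fun p => val p x < y)).Nonempty := by
      refine card_pos.1 ?_
      have hy' : k < bel Q (x, y) := hy
      unfold bel at hy'
      simp only at hy'
      omega
    obtain ⟨p, hp⟩ := this
    exact (hlo p (mem_filter.1 hp).1).trans (mem_filter.1 hp).2.le
  have ne : {y | k < bel Q (x, y)}.Nonempty := by
    refine ⟨val hi x + 1, ?_⟩
    change k < bel Q (x, val hi x + 1)
    unfold bel
    rw [filter_true_of_mem fun p hp => by simp only; linarith [hhi p hp]]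
    exact h1
  constructor
  · intro hy
    have hne : ((Q.filter fun p => val p x < y)).Nonempty := by
      refine card_pos.1 ?_
      unfold bel at hy
      simp only at hy
      omega
    obtain ⟨m, hm, hm'⟩ := exists_max_image _ (fun p => val p x) hne
    have hmy : val m x < y := (mem_filter.1 hm).2
    refine lt_of_le_of_lt (csInf_le bdd (a := (val m x + y) / 2) ?_) (by linarith)
    refine lt_of_lt_of_le hy (bel_le_bel fun p hp hp' => ?_)
    have := hm' p (mem_filter.2 ⟨hp, hp'⟩)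
    simp only
    linarith
  · intro hy
    obtain ⟨y', h1, h2⟩ := exists_lt_of_csInf_lt ne hy
    exact lt_of_lt_of_le h1 (bel_le_bel fun p _ hp => hp.trans h2)

theorem lev_iff' {Q : Finset Pt} (hQ : Q.Nonempty) (c : ℝ) (a : ℤ) (x y : ℝ) :
    min (max a 0) ((Q.card : ℤ) - 1) < bel Q (x, y) ↔ lev Q c a x < y := by
  have := card_pos.2 hQ
  rw [lev, if_pos hQ]
  exact inf_iff (by omega) (by omega) x y

theorem lev_iff {Q : Finset Pt} (c : ℝ) {a : ℤ} (h0 : 0 ≤ a) (h1 : a < Q.card) (z : Pt) :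
    a < bel Q z ↔ lev Q c a z.1 < z.2 := by
  rw [← lev_iff' (card_pos.1 (by omega)), max_eq_left h0, min_eq_left (by omega)]

theorem lev_mono (Q : Finset Pt) (c : ℝ) {a a' : ℤ} (h : a ≤ a') (x : ℝ) :
    lev Q c a x ≤ lev Q c a' x := by
  by_cases hQ : Q.Nonempty
  · refine le_of_forall_gt_imp_ge_of_dense fun y hy => ?_
    rw [← lev_iff' hQ] at hy
    exact ((lev_iff' hQ c a x y).1 (by omega)).le
  · simp [lev, hQ]

theorem lev_slope {Q : Finset Pt} {c m1 m2 : ℝ} (h : ∀ p ∈ Q, m1 ≤ p.1 ∧ p.1 ≤ m2) (h1 : m1 ≤ c)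
    (h2 : c ≤ m2) (a : ℤ) {x x' : ℝ} (hx : x ≤ x') :
    m1 * (x' - x) ≤ lev Q c a x' - lev Q c a x ∧ lev Q c a x' - lev Q c a x ≤ m2 * (x' - x) := by
  have d := sub_nonneg.2 hx
  by_cases hQ : Q.Nonempty
  · constructor
    · suffices lev Q c a x + m1 * (x' - x) ≤ lev Q c a x' by linarith
      refine le_of_forall_gt_imp_ge_of_dense fun y hy => ?_
      rw [← lev_iff' hQ] at hy
      have := (lev_iff' hQ c a x (y - m1 * (x' - x))).1 (lt_of_lt_of_le hy
        (bel_le_bel fun p hp hp' => by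
          have := mul_le_mul_of_nonneg_right (h p hp).1 d
          simp only at hp' ⊢
          linarith [val_sub p x x']))
      linarith
    · suffices lev Q c a x' - m2 * (x' - x) ≤ lev Q c a x by linarith
      refine le_of_forall_gt_imp_ge_of_dense fun y hy => ?_
      rw [← lev_iff' hQ] at hy
      have := (lev_iff' hQ c a x' (y + m2 * (x' - x))).1 (lt_of_lt_of_le hy
        (bel_le_bel fun p hp hp' => by
          have := mul_le_mul_of_nonneg_right (h p hp).2 d
          simp only at hp' ⊢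
          linarith [val_sub p x x']))
      linarith
  · simp only [lev, if_neg hQ]
    constructor <;> nlinarith [mul_le_mul_of_nonneg_right h1 d, mul_le_mul_of_nonneg_right h2 d]

theorem lev_bel {Q : Finset Pt} (c : ℝ) {p : Pt} (hp : p ∈ Q) {z : Pt} (hz : On p z) :
    bel Q z < Q.card ∧ lev Q c (bel Q z) z.1 = z.2 := by
  obtain ⟨x, y⟩ := z
  obtain rfl : val p x = y := hz
  have h1 : bel Q (x, val p x) < Q.card :=
    (bel_lt_bel hp (lt_add_one _)).trans_le (bel_le _ _)
  refine ⟨h1, le_antisymm (le_of_forall_gt_imp_ge_of_dense fun y hy => ?_) (not_lt.1 fun k => ?_)⟩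
  · exact ((lev_iff c (bel_nonneg _ _) h1 (x, y)).1 (bel_lt_bel hp hy)).le
  · exact lt_irrefl _ ((lev_iff c (bel_nonneg _ _) h1 (x, val p x)).2 k)

theorem crs_spec {f g : ℝ → ℝ} {m M : ℝ} (hm : 0 < m) (h : ∀ x x', x ≤ x' →
    m * (x' - x) ≤ (f x' - g x') - (f x - g x) ∧ (f x' - g x') - (f x - g x) ≤ M * (x' - x)) :
    f (crs f g) = g (crs f g) ∧ ∀ x, f x = g x → x = crs f g := by
  have hM : 0 ≤ M := by linarith [(h 0 1 zero_le_one).1, (h 0 1 zero_le_one).2]
  have cont : Continuous fun x => f x - g x := by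
    refine (LipschitzWith.of_dist_le' (K := M) fun x y => ?_).continuous
    rw [Real.dist_eq, Real.dist_eq]
    rcases le_total x y with k | k
    · have := mul_nonneg hm.le (sub_nonneg.2 k)
      rw [abs_of_nonpos (sub_nonpos.2 k), abs_of_nonpos (by linarith [(h x y k).1])]
      linarith [(h x y k).2]
    · have := mul_nonneg hm.le (sub_nonneg.2 k)
      rw [abs_of_nonneg (sub_nonneg.2 k), abs_of_nonneg (by linarith [(h y x k).1])]
      exact (h y x k).2
  have ex : ∃ x, f x = g x := by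
    have p : 0 ≤ |f 0 - g 0| / m := by positivity
    have e : m * (|f 0 - g 0| / m) = |f 0 - g 0| := by field_simp
    obtain ⟨x, hx⟩ := intermediate_value_univ (-(|f 0 - g 0| / m)) (|f 0 - g 0| / m) cont
      (show (0 : ℝ) ∈ Set.Icc _ _ from ⟨by
        have := (h (-(|f 0 - g 0| / m)) 0 (by linarith)).1
        linarith [le_abs_self (f 0 - g 0)], by
        have := (h 0 (|f 0 - g 0| / m) p).1
        linarith [neg_abs_le (f 0 - g 0)]⟩)
    exact ⟨x, sub_eq_zero.1 hx⟩
  have sp : f (crs f g) = g (crs f g) := Classical.epsilon_spec ex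
  refine ⟨sp, fun x hx => ?_⟩
  rcases le_total x (crs f g) with k | k
  · have := (h _ _ k).1
    nlinarith
  · have := (h _ _ k).1
    nlinarith

/-- the number of lines below a moving point of a line has bounded variation -/
theorem exists_tv (Q : Finset Pt) (p : Pt) : ∃ Φ : ℝ → ℤ,
    (∀ x x', x ≤ x' → |bel Q (x', val p x') - bel Q (x, val p x)| ≤ Φ x' - Φ x) ∧
      ∀ x x', Φ x' - Φ x ≤ Q.card := by
  classical
  have sp : ∀ z, bel Q z = bel (Q.filter fun q => q.1 ≤ p.1) z +
      bel (Q.filter fun q => ¬ q.1 ≤ p.1) z := by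
    intro z
    unfold bel
    rw [filter_comm, filter_comm (fun q : Pt => ¬ q.1 ≤ p.1), ← Nat.cast_add,
      card_filter_add_card_filter_not]
  have c : ((Q.filter fun q => q.1 ≤ p.1).card : ℤ) + (Q.filter fun q => ¬ q.1 ≤ p.1).card =
      Q.card := by rw [← Nat.cast_add, card_filter_add_card_filter_not]
  refine ⟨fun x => bel (Q.filter fun q => q.1 ≤ p.1) (x, val p x) -
    bel (Q.filter fun q => ¬ q.1 ≤ p.1) (x, val p x), fun x x' hx => ?_, fun x x' => ?_⟩
  · have d := sub_nonneg.2 hx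
    have h1 : bel (Q.filter fun q => q.1 ≤ p.1) (x, val p x) ≤
        bel (Q.filter fun q => q.1 ≤ p.1) (x', val p x') := bel_le_bel fun q hq h => by
      have := mul_le_mul_of_nonneg_right (mem_filter.1 hq).2 d
      simp only at h ⊢
      linarith [val_sub p x x', val_sub q x x']
    have h2 : bel (Q.filter fun q => ¬ q.1 ≤ p.1) (x', val p x') ≤
        bel (Q.filter fun q => ¬ q.1 ≤ p.1) (x, val p x) := bel_le_bel fun q hq h => by
      have := mul_le_mul_of_nonneg_right (not_le.1 (mem_filter.1 hq).2).le d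
      simp only at h ⊢
      linarith [val_sub p x x', val_sub q x x']
    rw [sp, sp, abs_le]
    constructor <;> linarith
  · linarith [bel_le (Q.filter fun q => q.1 ≤ p.1) (x', val p x'),
      bel_le (Q.filter fun q => ¬ q.1 ≤ p.1) (x, val p x),
      bel_nonneg (Q.filter fun q => q.1 ≤ p.1) (x, val p x),
      bel_nonneg (Q.filter fun q => ¬ q.1 ≤ p.1) (x', val p x')]

theorem tv_sum (Q : Finset Pt) (p : Pt) {xs : ℤ → ℝ} (h : Monotone xs ∨ Antitone xs) (m : ℕ) :
    ∑ k ∈ Ico (0 : ℤ) m, (bel Q (xs (k + 1), val p (xs (k + 1))) -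
      bel Q (xs k, val p (xs k))).natAbs ≤ Q.card := by
  obtain ⟨Φ, h1, h2⟩ := exists_tv Q p
  have key : ∀ ψ : ℤ → ℤ, (∀ k, |bel Q (xs (k + 1), val p (xs (k + 1))) -
      bel Q (xs k, val p (xs k))| ≤ ψ (k + 1) - ψ k) → ∀ m : ℕ,
      ((∑ k ∈ Ico (0 : ℤ) m, (bel Q (xs (k + 1), val p (xs (k + 1))) -
        bel Q (xs k, val p (xs k))).natAbs : ℕ) : ℤ) ≤ ψ m - ψ 0 := by
    intro ψ hψ m
    induction m with
    | zero => simp
    | succ m ih =>
      rw [Nat.cast_succ, ← insert_Ico_right_eq_Ico_add_one (Int.natCast_nonneg m),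
        sum_insert right_notMem_Ico, Nat.cast_add, Int.natCast_natAbs]
      linarith [hψ m]
  rcases h with h | h
  · have := key (fun k => Φ (xs k)) (fun k => h1 _ _ (h (by omega))) m
    exact_mod_cast this.trans (h2 _ _)
  · have := key (fun k => -Φ (xs k)) (fun k => by
      rw [abs_sub_comm]
      linarith [h1 _ _ (h (show k ≤ k + 1 by omega))]) m
    exact_mod_cast this.trans (show _ ≤ (Q.card : ℤ) by linarith [h2 (xs m) (xs 0)])

theorem card_sep {α : Type*} (S : Finset α) (Φ : α → ℤ) (n M : ℕ)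
    (h1 : ∀ a ∈ S, ∀ b ∈ S, Φ a - Φ b ≤ M)
    (h2 : ∀ a ∈ S, ∀ b ∈ S, a ≠ b → (n : ℤ) ≤ |Φ a - Φ b|) : (S.card - 1) * n ≤ M := by
  rcases Nat.eq_zero_or_pos n with rfl | hn
  · simp
  rcases S.eq_empty_or_nonempty with rfl | hS
  · simp
  obtain ⟨a0, ha0, hmin⟩ := exists_min_image S Φ hS
  have c : S.card ≤ (range (M / n + 1)).card := by
    refine card_le_card_of_injOn (fun a => (Φ a - Φ a0).toNat / n) (fun a ha => ?_)
      fun a ha b hb e => ?_
    · have := h1 a ha a0 ha0
      exact mem_coe.2 (mem_range.2 (Nat.lt_succ_of_le (Nat.div_le_div_right (by omega))))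
    · by_contra hne
      have k := h2 a ha b hb hne
      have u1 := hmin a ha
      have u2 := hmin b hb
      have v1 := Nat.div_add_mod (Φ a - Φ a0).toNat n
      have v2 := Nat.div_add_mod (Φ b - Φ a0).toNat n
      have w1 := Nat.mod_lt (Φ a - Φ a0).toNat hn
      have w2 := Nat.mod_lt (Φ b - Φ a0).toNat hn
      simp only at e
      rw [e] at v1
      rcases le_abs'.1 k with k | k <;> omega
  rw [card_range] at c
  calc (S.card - 1) * n ≤ M / n * n := Nat.mul_le_mul_right _ (Nat.sub_le_of_le_add c)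
    _ ≤ M := Nat.div_mul_le_self _ _

end ECub.D
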